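import Pool.Agent.Helper17.SL.GoalsZE

/-!
# Packet SL ZI: classes of a box modulo a subgroup
-/

namespace Pool.Agent.Helper59.SL.PkZI

open Pool.Agent.Helper17.SL Module

/-- the inclusion of `ℤ ^ g` in `ℚ ^ g` -/
def phi (g : ℕ) : (Fin g → ℤ) →ₗ[ℤ] (Fin g → ℚ) where
  toFun a := fun i => (a i : ℚ)
  map_add' a b := by funext i; simp
  map_smul' c a := by funext i; simp

theorem phi_apply (g : ℕ) (a : Fin g → ℤ) (i : Fin g) : phi g a i = (a i : ℚ) := rfl

/-- the rational span of `G` has dimension at most the rank of `G` -/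
theorem finrank_le (g : ℕ) (G : Submodule ℤ (Fin g → ℤ)) :
    finrank ℚ (Submodule.span ℚ (phi g '' (G : Set (Fin g → ℤ)))) ≤ finrank ℤ G := by
  let b := Module.finBasis ℤ G
  have h1 : Submodule.span ℚ (phi g '' (G : Set (Fin g → ℤ))) ≤
      Submodule.span ℚ (Set.range fun k => phi g (b k : Fin g → ℤ)) := by
    rw [Submodule.span_le]
    rintro _ ⟨x, hx, rfl⟩
    have h2 := b.sum_repr ⟨x, hx⟩
    have h3 : x = ∑ k, b.repr ⟨x, hx⟩ k • (b k : Fin g → ℤ) := by
      have := congrArg (fun y : G => (y : Fin g → ℤ)) h2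
      simp only [Submodule.coe_sum, Submodule.coe_smul] at this
      exact this.symm
    rw [h3, map_sum]
    refine Submodule.sum_mem _ fun k _ => ?_
    rw [map_smul, ← Int.cast_smul_eq_zsmul ℚ]
    exact Submodule.smul_mem _ _ (Submodule.subset_span ⟨k, rfl⟩)
  refine (Submodule.finrank_mono h1).trans ?_
  have h4 := finrank_range_le_card (R := ℚ) (fun k => phi g (b k : Fin g → ℤ))
  rw [Fintype.card_fin] at h4
  exact h4

theorem thm : S_ZI := by
  classical
  intro g G B hB
  set W := Submodule.span ℚ (phi g '' (G : Set (Fin g → ℤ))) with hW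
  set v : Fin g → (Fin g → ℚ) ⧸ W := fun i => W.mkQ (Pi.single i 1) with hv
  obtain ⟨κ, a, ha, hspan, hli⟩ := exists_linearIndependent' ℚ v
  have : Finite κ := Finite.of_injective a ha
  have : Fintype κ := Fintype.ofFinite κ
  have htop : Submodule.span ℚ (Set.range v) = ⊤ := by
    have h1 : Set.range v = W.mkQ '' (Set.range fun i : Fin g => (Pi.single i 1 : Fin g → ℚ)) := by
      rw [← Set.range_comp]
      rfl
    rw [h1, Submodule.span_image]
    have h2 : Submodule.span ℚ (Set.range fun i : Fin g => (Pi.single i 1 : Fin g → ℚ)) = ⊤ := by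
      have := (Pi.basisFun ℚ (Fin g)).span_eq
      rw [← this]
      congr 1
      funext x
      simp [Set.range, Pi.basisFun_apply]
    rw [h2, Submodule.map_top, Submodule.range_mkQ]
  have hcard : g - finrank ℤ G ≤ Fintype.card κ := by
    have h1 := finrank_span_eq_card hli
    rw [hspan, htop, finrank_top] at h1
    have h2 := Submodule.finrank_quotient_add_finrank W
    rw [Module.finrank_fintype_fun_eq_card, Fintype.card_fin] at h2
    have h3 : finrank ℚ W ≤ finrank ℤ G := finrank_le g G
    omega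
  set f : (κ → Fin B) → Fin g → ℤ := fun c => Function.extend a (fun k => ((c k : ℕ) : ℤ)) 0 with hf
  have hmk : ∀ c, W.mkQ (phi g (f c)) = ∑ k, ((c k : ℕ) : ℚ) • v (a k) := by
    intro c
    have h1 : phi g (f c) = ∑ i, (f c i : ℚ) • (Pi.single i 1 : Fin g → ℚ) := by
      funext j
      rw [phi_apply, Finset.sum_apply]
      simp [Pi.single_apply]
    rw [h1, map_sum]
    symm
    refine Fintype.sum_of_injective a ha _ _ (fun i hi => ?_) fun k => ?_
    · have : f c i = 0 := by
        rw [hf]
        exact Function.extend_apply' _ _ _ (fun ⟨k, hk⟩ => hi ⟨k, hk⟩)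
      rw [this, Int.cast_zero, zero_smul, map_zero]
    · have : f c (a k) = ((c k : ℕ) : ℤ) := by
        rw [hf]
        exact ha.extend_apply _ _ _
      rw [this, map_smul, Int.cast_natCast]
  have key : ∀ c c', f c - f c' ∈ G → c = c' := by
    intro c c' h
    have h1 : W.mkQ (phi g (f c - f c')) = 0 := by
      rw [Submodule.mkQ_apply, Submodule.Quotient.mk_eq_zero]
      exact Submodule.subset_span ⟨_, h, rfl⟩
    rw [map_sub, map_sub, hmk, hmk, ← Finset.sum_sub_distrib] at h1
    simp_rw [← sub_smul] at h1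
    funext k
    have h2 := Fintype.linearIndependent_iff.1 hli _ h1 k
    have h3 : ((c k : ℕ) : ℚ) = ((c' k : ℕ) : ℚ) := sub_eq_zero.1 h2
    exact Fin.ext (by exact_mod_cast h3)
  refine ⟨Finset.univ.image f, ?_, ?_, ?_⟩
  · intro x hx i
    obtain ⟨c, -, rfl⟩ := Finset.mem_image.1 hx
    by_cases hi : ∃ k, a k = i
    · obtain ⟨k, rfl⟩ := hi
      have : f c (a k) = ((c k : ℕ) : ℤ) := by
        rw [hf]
        exact ha.extend_apply _ _ _
      rw [this, abs_of_nonneg (by positivity)]
      have := (c k).2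
      exact_mod_cast this.le
    · have : f c i = 0 := by
        rw [hf]
        exact Function.extend_apply' _ _ _ hi
      rw [this, abs_zero]
      positivity
  · intro x hx y hy hxy
    obtain ⟨c, -, rfl⟩ := Finset.mem_image.1 hx
    obtain ⟨c', -, rfl⟩ := Finset.mem_image.1 hy
    rw [key c c' hxy]
  · rw [Finset.card_image_of_injective _ (fun c c' h => key c c' (by
      rw [h, sub_self]
      exact zero_mem _)), Finset.card_univ, Fintype.card_fun, Fintype.card_fin]
    exact Nat.pow_le_pow_right hB hcard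

end Pool.Agent.Helper59.SL.PkZI
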