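import Pool.Agent.Helper17.SL.Defs
import Pool.Agent.Helper51.SixExp.Concrete
import Pool.Agent.Helper51.SixExp.Half

/-!
# Project SL (MP_fc6b1e_nt), Galois part: definitions

`A ⊗ 𝓞_Hˣ` for a field `A` of characteristic zero and a number field `H` (or `H = Ω`, an algebraic
closure of `ℚ`: then `𝓞_Ωˣ` is the group of all algebraic units). `extEnd`, `extHom`, `eChi`,
`unitsHom`, `logUnits` are those of `Helper51/SigLeo/Defs.lean`. New here: the archimedean logarithm
`logC`, the change of coefficients `cc`, the push-forward `pf` along an embedding of fields, and the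
eigenvectors `Eig` of a Galois group.
-/

namespace Pool.Agent.Helper59.SL

open Pool.Agent.Helper51.SigLeo Pool.Agent.Helper51.SixExp Pool.Agent.Helper17.SL NumberField Module
  TensorProduct

/-- The archimedean analogue of `logUnits`: `u ↦ log |φ(u)|`. -/
noncomputable def logC {H : Type*} [Field H] (φ : H →+* ℂ) : Additive (𝓞 H)ˣ →+ ℂ :=
  AddMonoidHom.mk' (fun u ↦ ((Real.log ‖φ ((u.toMul : (𝓞 H)ˣ) : H)‖ : ℝ) : ℂ)) fun u v ↦ by
    have hu : φ ((u.toMul : (𝓞 H)ˣ) : H) ≠ 0 := by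
      rw [map_ne_zero]
      simp
    have hv : φ ((v.toMul : (𝓞 H)ˣ) : H) ≠ 0 := by
      rw [map_ne_zero]
      simp
    have h : (((u + v).toMul : (𝓞 H)ˣ) : H) =
        ((u.toMul : (𝓞 H)ˣ) : H) * ((v.toMul : (𝓞 H)ˣ) : H) := by
      rw [toMul_add]
      simp
    rw [h, map_mul, norm_mul, Real.log_mul (norm_ne_zero_iff.2 hu) (norm_ne_zero_iff.2 hv)]
    push_cast
    ring

theorem logC_apply {H : Type*} [Field H] (φ : H →+* ℂ) (u : (𝓞 H)ˣ) :
    logC φ (Additive.ofMul u) = ((Real.log ‖φ (u : H)‖ : ℝ) : ℂ) := rfl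

/-- Change of coefficients. -/
noncomputable def cc {A B : Type*} [Field A] [Field B] (f : A →+* B) {M : Type*}
    [AddCommGroup M] : A ⊗[ℤ] M →+ B ⊗[ℤ] M :=
  (TensorProduct.map f.toAddMonoidHom.toIntLinearMap LinearMap.id).toAddMonoidHom

section cc

variable {A B C : Type*} [Field A] [Field B] [Field C] (f : A →+* B) {M : Type*} [AddCommGroup M]

@[simp]
theorem cc_tmul (a : A) (m : M) : cc f (a ⊗ₜ[ℤ] m) = f a ⊗ₜ[ℤ] m := rfl

theorem cc_smul (a : A) (x : A ⊗[ℤ] M) : cc f (a • x) = f a • cc f x := by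
  induction x using TensorProduct.induction_on with
  | zero => simp
  | tmul c m => rw [TensorProduct.smul_tmul', cc_tmul, cc_tmul, TensorProduct.smul_tmul',
      smul_eq_mul, smul_eq_mul, map_mul]
  | add x y hx hy => rw [smul_add, map_add, hx, hy, map_add, smul_add]

theorem cc_cc (g : B →+* C) (x : A ⊗[ℤ] M) : cc g (cc f x) = cc (g.comp f) x := by
  induction x using TensorProduct.induction_on with
  | zero => simp
  | tmul c m => rfl
  | add x y hx hy => rw [map_add, map_add, hx, hy, map_add]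

theorem cc_extEnd (g : M →+ M) (x : A ⊗[ℤ] M) :
    cc f (extEnd g x) = extEnd g (cc f x) := by
  induction x using TensorProduct.induction_on with
  | zero => simp
  | tmul c m => simp
  | add x y hx hy => simp only [map_add, hx, hy]

theorem extHom_cc (g : M →+ A) (x : A ⊗[ℤ] M) :
    extHom ((f : A →+ B).comp g) (cc f x) = f (extHom g x) := by
  induction x using TensorProduct.induction_on with
  | zero => simp
  | tmul c m => simp
  | add x y hx hy => simp only [map_add, hx, hy]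

/-- The idempotent attached to a character is compatible with change of coefficients. -/
theorem cc_eChi {G : Type*} [Group G] [Finite G] (n : ℕ) (χ : G →* Aˣ) (a : G → M →+ M)
    (x : A ⊗[ℤ] M) : cc f (eChi n χ a x) =
      eChi n ((Units.map (f : A →* B)).comp χ) a (cc f x) := by
  classical
  have : Fintype G := Fintype.ofFinite G
  unfold eChi
  rw [finsum_eq_sum_of_fintype, finsum_eq_sum_of_fintype, cc_smul, map_inv₀, map_natCast, map_sum]
  congr 1
  refine Finset.sum_congr rfl fun g _ ↦ ?_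
  rw [cc_smul, cc_extEnd]
  rfl

end cc

/-- The `A`-linear extension of a homomorphism of abelian groups. -/
noncomputable def extM {A : Type*} [Field A] {M N : Type*} [AddCommGroup M] [AddCommGroup N]
    (f : M →+ N) : A ⊗[ℤ] M →ₗ[A] A ⊗[ℤ] N :=
  f.toIntLinearMap.baseChange A

@[simp]
theorem extM_tmul {A : Type*} [Field A] {M N : Type*} [AddCommGroup M] [AddCommGroup N]
    (f : M →+ N) (a : A) (m : M) : (extM f : A ⊗[ℤ] M →ₗ[A] A ⊗[ℤ] N) (a ⊗ₜ m) = a ⊗ₜ f m := by
  simp [extM]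

/-- The homomorphism between the unit groups given by an embedding of fields. -/
noncomputable def um {H H' : Type*} [Field H] [Field H'] (σ : H →+* H') :
    Additive (𝓞 H)ˣ →+ Additive (𝓞 H')ˣ :=
  AddMonoidHom.mk' (fun u ↦ .ofMul (Units.map (RingOfIntegers.mapRingHom σ) u.toMul))
    fun _ _ ↦ congrArg Additive.ofMul (map_mul _ _ _)

@[simp]
theorem um_apply {H H' : Type*} [Field H] [Field H'] (σ : H →+* H') (u : Additive (𝓞 H)ˣ) :
    (((um σ u).toMul : (𝓞 H')ˣ) : H') = σ ((u.toMul : (𝓞 H)ˣ) : H) := rfl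

/-- Push-forward `A ⊗ 𝓞_Hˣ → A ⊗ 𝓞_H'ˣ` along an embedding `σ : H → H'`. -/
noncomputable def pf (A : Type*) [Field A] {H H' : Type*} [Field H] [Field H'] (σ : H →+* H') :
    A ⊗[ℤ] Additive (𝓞 H)ˣ →ₗ[A] A ⊗[ℤ] Additive (𝓞 H')ˣ := extM (um σ)

section pf

variable {A B : Type*} [Field A] [Field B] {H H' H'' : Type*} [Field H] [Field H'] [Field H'']

@[simp]
theorem pf_tmul (σ : H →+* H') (a : A) (u : Additive (𝓞 H)ˣ) :
    pf A σ (a ⊗ₜ u) = a ⊗ₜ um σ u := extM_tmul _ _ _

theorem pf_pf (σ : H →+* H') (σ' : H' →+* H'') (x : A ⊗[ℤ] Additive (𝓞 H)ˣ) :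
    pf A σ' (pf A σ x) = pf A (σ'.comp σ) x := by
  induction x using TensorProduct.induction_on with
  | zero => simp
  | tmul c m => simp only [pf_tmul]; rfl
  | add x y hx hy => simp only [map_add, hx, hy]

theorem cc_pf (f : A →+* B) (σ : H →+* H') (x : A ⊗[ℤ] Additive (𝓞 H)ˣ) :
    cc f (pf A σ x) = pf B σ (cc f x) := by
  induction x using TensorProduct.induction_on with
  | zero => simp
  | tmul c m => simp only [pf_tmul, cc_tmul]
  | add x y hx hy => simp only [map_add, hx, hy]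

theorem extHom_logC_pf (φ : H' →+* ℂ) (σ : H →+* H') (x : ℂ ⊗[ℤ] Additive (𝓞 H)ˣ) :
    extHom (logC φ) (pf ℂ σ x) = extHom (logC (φ.comp σ)) x := by
  induction x using TensorProduct.induction_on with
  | zero => simp
  | tmul c m => simp only [pf_tmul, extHom_tmul]; rfl
  | add x y hx hy => simp only [map_add, hx, hy]

theorem extHom_logUnits_pf {p : ℕ} {k : Type*} [NormedField k] (L : IwasawaLog p k)
    (τ : H' →+* k) (σ : H →+* H') (x : k ⊗[ℤ] Additive (𝓞 H)ˣ) :
    extHom (logUnits L τ) (pf k σ x) = extHom (logUnits L (τ.comp σ)) x := by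
  induction x using TensorProduct.induction_on with
  | zero => simp
  | tmul c m =>
    simp only [pf_tmul, extHom_tmul]
    congr 1
  | add x y hx hy => simp only [map_add, hx, hy]

theorem pf_eq_extEnd {F : Type*} [Field F] [Algebra F H] (γ : H ≃ₐ[F] H)
    (x : A ⊗[ℤ] Additive (𝓞 H)ˣ) : pf A (γ : H →+* H) x = extEnd (unitsHom γ) x := by
  induction x using TensorProduct.induction_on with
  | zero => simp
  | tmul c m => simp only [pf_tmul, extEnd_tmul]; rfl
  | add x y hx hy => simp only [map_add, hx, hy]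

theorem extHom_logC_gal {F : Type*} [Field F] [Algebra F H] (γ : H ≃ₐ[F] H) (φ : H →+* ℂ)
    (x : ℂ ⊗[ℤ] Additive (𝓞 H)ˣ) :
    extHom (logC (φ.comp (γ : H →+* H))) x = extHom (logC φ) (extEnd (unitsHom γ) x) := by
  rw [← pf_eq_extEnd, extHom_logC_pf]

theorem extHom_logUnits_gal {F : Type*} [Field F] [Algebra F H] (γ : H ≃ₐ[F] H) {p : ℕ}
    {k : Type*} [NormedField k] (L : IwasawaLog p k) (τ : H →+* k)
    (x : k ⊗[ℤ] Additive (𝓞 H)ˣ) :
    extHom (logUnits L (τ.comp (γ : H →+* H))) x =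
      extHom (logUnits L τ) (extEnd (unitsHom γ) x) := by
  rw [← pf_eq_extEnd, extHom_logUnits_pf]

theorem logC_conjugate (φ : H →+* ℂ) : logC (ComplexEmbedding.conjugate φ) = logC φ := by
  refine AddMonoidHom.ext fun u ↦ ?_
  show ((Real.log ‖ComplexEmbedding.conjugate φ ((u.toMul : (𝓞 H)ˣ) : H)‖ : ℝ) : ℂ) =
    ((Real.log ‖φ ((u.toMul : (𝓞 H)ˣ) : H)‖ : ℝ) : ℂ)
  rw [ComplexEmbedding.conjugate_coe_eq, RCLike.norm_conj]

end pf

/-- `x` is an eigenvector of `Gal(H/F)` with eigenvalues `θ`. -/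
def Eig {F H A : Type*} [Field F] [Field H] [Algebra F H] [Field A] (θ : (H ≃ₐ[F] H) → A)
    (x : A ⊗[ℤ] Additive (𝓞 H)ˣ) : Prop :=
  ∀ γ : H ≃ₐ[F] H, extEnd (unitsHom γ) x = θ γ • x

/-- Change of coefficients of a character. -/
def ch {G A B : Type*} [Group G] [Field A] [Field B] (f : A →+* B) (χ : G →* Aˣ) : G →* Bˣ :=
  (Units.map (f : A →* B)).comp χ

@[simp]
theorem ch_coe {G A B : Type*} [Group G] [Field A] [Field B] (f : A →+* B) (χ : G →* Aˣ) (g : G) :
    ((ch f χ g : Bˣ) : B) = f (χ g : A) := rfl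

theorem Eig.cc {F H A B : Type*} [Field F] [Field H] [Algebra F H] [Field A] [Field B]
    (f : A →+* B) {θ : (H ≃ₐ[F] H) → A} {x : A ⊗[ℤ] Additive (𝓞 H)ˣ} (h : Eig θ x) :
    Eig (fun γ ↦ f (θ γ)) (SL.cc f x) := by
  intro γ
  rw [← cc_extEnd, h γ, cc_smul]

/-- `e_χ(x)` is an eigenvector. -/
theorem eig_eChi {F H A : Type*} [Field F] [Field H] [Algebra F H] [FiniteDimensional F H]
    [Field A] (n : ℕ) (χ : (H ≃ₐ[F] H) →* Aˣ) (x : A ⊗[ℤ] Additive (𝓞 H)ˣ) :
    Eig (fun γ ↦ (χ γ : A)) (eChi n χ unitsHom x) := by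
  classical
  intro γ
  unfold eChi
  rw [finsum_eq_sum_of_fintype, map_smul, map_sum, smul_comm]
  congr 1
  have h1 : ∑ g : H ≃ₐ[F] H, ((χ g⁻¹ : Aˣ) : A) • extEnd (unitsHom g) x =
      ∑ g : H ≃ₐ[F] H, ((χ (γ * g)⁻¹ : Aˣ) : A) • extEnd (unitsHom (γ * g)) x :=
    (Equiv.sum_comp (Equiv.mulLeft γ)
      fun g : H ≃ₐ[F] H ↦ ((χ g⁻¹ : Aˣ) : A) • extEnd (unitsHom g) x).symm
  rw [h1, Finset.smul_sum]
  refine Finset.sum_congr rfl fun g _ ↦ ?_
  rw [map_smul, unitsHom_mul, extEnd_comp, smul_smul]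
  congr 1
  show ((χ g⁻¹ : Aˣ) : A) = ((χ γ : Aˣ) : A) * ((χ (γ * g)⁻¹ : Aˣ) : A)
  rw [← Units.val_mul, mul_inv_rev, map_mul, mul_comm, mul_assoc, ← map_mul, inv_mul_cancel,
    map_one, mul_one]

/-- An eigenvector is fixed by `e_χ`. -/
theorem Eig.eChi_eq {F H A : Type*} [Field F] [Field H] [Algebra F H] [FiniteDimensional F H]
    [IsGalois F H] [Field A] [CharZero A] {χ : (H ≃ₐ[F] H) →* Aˣ}
    {x : A ⊗[ℤ] Additive (𝓞 H)ˣ} (h : Eig (fun γ ↦ (χ γ : A)) x) :
    eChi (finrank F H) χ unitsHom x = x := by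
  classical
  unfold eChi
  rw [finsum_eq_sum_of_fintype]
  have h1 : ∀ g : H ≃ₐ[F] H, ((χ g⁻¹ : Aˣ) : A) • extEnd (unitsHom g) x = x := by
    intro g
    rw [h g, smul_smul, ← Units.val_mul, ← map_mul, inv_mul_cancel, map_one, Units.val_one,
      one_smul]
  rw [Finset.sum_congr rfl fun g _ ↦ h1 g, Finset.sum_const, Finset.card_univ,
    ← Nat.card_eq_fintype_card, IsGalois.card_aut_eq_finrank, ← Nat.cast_smul_eq_nsmul A,
    smul_smul, inv_mul_cancel₀, one_smul]
  exact_mod_cast (finrank_pos (R := F) (M := H)).ne'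

/-- Two embeddings of a normal extension with the same restriction differ by an automorphism. -/
theorem exists_gal_comp {K H A : Type*} [Field K] [Field H] [Algebra K H] [Normal K H] [Field A]
    (φ φ' : H →+* A) (h : φ'.comp (algebraMap K H) = φ.comp (algebraMap K H)) :
    ∃ g : H ≃ₐ[K] H, φ' = φ.comp (g : H →+* H) := by
  let _ : Algebra H A := φ.toAlgebra
  let _ : Algebra K A := (φ.comp (algebraMap K H)).toAlgebra
  have h1 : IsScalarTower K H A := IsScalarTower.of_algebraMap_eq fun x ↦ rfl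
  let f : H →ₐ[K] A := { φ' with commutes' := fun x ↦ RingHom.congr_fun h x }
  let g := f.restrictNormal' H
  refine ⟨g, ?_⟩
  ext x
  have := f.restrictNormal_commutes H x
  exact this.symm

end Pool.Agent.Helper59.SL
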