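import Pool.Agent.Helper59.SL.MainB

/-!
# Project SL (MP_fc6b1e_nt), target B for subfields of an algebraic closure
-/

set_option linter.unusedSectionVars false

namespace Pool.Agent.Helper59.SL

open Pool.Agent.Helper51.SigLeo Pool.Agent.Helper51.SixExp Pool.Agent.Helper17.SL NumberField Module
  TensorProduct

universe u v

section

variable {F : Type u} [Field F] {Ω : Type u} [Field Ω] [Algebra F Ω]

theorem restrict_adjoin (N K : IntermediateField F Ω) :
    (IntermediateField.adjoin K (N : Set Ω)).restrictScalars F = K ⊔ N := by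
  rw [IntermediateField.restrictScalars_adjoin, IntermediateField.adjoin_union,
    IntermediateField.adjoin_self, IntermediateField.adjoin_self]

/-- The compositum and its restriction of scalars are the same field. -/
noncomputable def resEquiv (N K : IntermediateField F Ω) :
    (K ⊔ N : IntermediateField F Ω) ≃ₐ[F] IntermediateField.adjoin K (N : Set Ω) :=
  (IntermediateField.equivOfEq (restrict_adjoin N K).symm).trans
    { toFun := fun x ↦ ⟨x.1, x.2⟩
      invFun := fun x ↦ ⟨x.1, x.2⟩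
      left_inv := fun _ ↦ rfl
      right_inv := fun _ ↦ rfl
      map_mul' := fun _ _ ↦ rfl
      map_add' := fun _ _ ↦ rfl
      commutes' := fun _ ↦ rfl }

theorem eq_of_algEquiv {K₁ K₂ : IntermediateField F Ω} [Normal F K₂]
    (e : K₂ ≃ₐ[F] K₁) : K₁ = K₂ := by
  have h := AlgHom.fieldRange_of_normal (K₁.val.comp (e : K₂ →ₐ[F] K₁))
  rw [← h]
  ext x
  constructor
  · intro hx
    exact ⟨e.symm ⟨x, hx⟩, by simp⟩
  · rintro ⟨y, rfl⟩
    exact (e y).2

end

section

variable {F : Type u} [Field F] [NumberField F] [IsTotallyReal F] {Ω : Type u} [Field Ω]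
  [CharZero Ω] [IsAlgClosed Ω] [Algebra F Ω] [Algebra.IsAlgebraic ℚ Ω]

/-- The `Σ`-Leopoldt conjecture for the compositum `H = KN` and for the restriction `χ` to
`Gal(H/K)` of the character `ψ` of `Gal(N/F)` (for all embeddings `ι_∞`, `ι_p`, all CM types). -/
def SLRes (N K : IntermediateField F Ω) (p : ℕ) (k : Type*) [NormedField k]
    (ψ : (N ≃ₐ[F] N) →* kˣ) : Prop :=
  ∀ (ιinf : Ω →+* ℂ) (ιp : Ω →+* k) (S : Set (K →+* ℂ))
    (χ : (IntermediateField.adjoin K (N : Set Ω) ≃ₐ[K] IntermediateField.adjoin K (N : Set Ω)) →*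
      kˣ) (L : IwasawaLog p k), IsCMType S →
    (∀ (γ : IntermediateField.adjoin K (N : Set Ω) ≃ₐ[K] IntermediateField.adjoin K (N : Set Ω))
      (g : N ≃ₐ[F] N), (∀ x : N, γ (incl N K x) = incl N K (g x)) → χ γ = ψ g) →
    InjectiveOn (finrank K (IntermediateField.adjoin K (N : Set Ω))) χ unitsHom
      (logSigma ιinf ιp S L)

/-- **Target B**, in a fixed algebraic closure. -/
theorem subsingletonB (hTRT : S_TRT.{u, v, u}) (hSIXT : S_SIXT.{u, v, u})
    (hINJ : S_INJ.{u, v, u, u})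
    (hEIG : S_EIGSPAN.{u, u, u, v}) (hVAL : S_VAL.{v, u, u}) (hSGN : S_SGN.{u, u})
    (hARCHB : S_ARCHB.{u, u}) (hGRP : S_GRP.{u, u, u, u}) (hSPLIT : S_SPLIT.{u, u, u, u, v})
    (hDESC : S_DESC.{u, u, u, v}) (hFAILB : S_FAILB.{u, v, u, u, u, u}) (hLUN : S_LUN.{u, v})
    (hNONV : S_NONV.{u, u, u}) (hSGNB : S_SGNB.{u, u, u, u, u}) (hAUTS : S_AUTS.{u, u, u, u})
    (hd : finrank ℚ F = 2) (N : IntermediateField F Ω) [FiniteDimensional F N] [IsGalois F N]
    (hr : ¬ IsTotallyReal N) (hc : ¬ IsTotallyComplex N) (p : ℕ) [Fact p.Prime] (k : Type v)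
    [NormedField k] [NormedAlgebra ℚ_[p] k] [IsUltrametricDist k] [CompleteSpace k] [CharZero k]
    [IsAlgClosed k] (ψ : (N ≃ₐ[F] N) →* kˣ) (hψ : Function.Injective ψ) :
    {K : IntermediateField F Ω | finrank F K = 2 ∧ IsTotallyComplex K ∧
      ¬ SLRes N K p k ψ}.Subsingleton := by
  rintro K₁ ⟨hK₁, hTC₁, hf₁⟩ K₂ ⟨hK₂, hTC₂, hf₂⟩
  by_contra hne
  have hNFN : NumberField N := NumberField.of_module_finite F N
  have hNF₁ : NumberField K₁ := numberField_of_finrank K₁ hK₁
  have hNF₂ : NumberField K₂ := numberField_of_finrank K₂ hK₂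
  have hfdK₁ : FiniteDimensional F K₁ := FiniteDimensional.of_finrank_pos (by omega)
  have hfdK₂ : FiniteDimensional F K₂ := FiniteDimensional.of_finrank_pos (by omega)
  have hq₁ : Algebra.IsQuadraticExtension F K₁ := ⟨hK₁⟩
  have hq₂ : Algebra.IsQuadraticExtension F K₂ := ⟨hK₂⟩
  -- the compositum
  have fin : ∀ (K : IntermediateField F Ω), FiniteDimensional F K →
      FiniteDimensional F (IntermediateField.adjoin K (N : Set Ω)) := by
    intro K hK
    have : FiniteDimensional F (K ⊔ N : IntermediateField F Ω) :=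
      IntermediateField.finiteDimensional_sup K N
    exact Module.Finite.equiv (resEquiv N K).toLinearEquiv
  have gal : ∀ (K : IntermediateField F Ω), Algebra.IsQuadraticExtension F K →
      FiniteDimensional F K → IsGalois F (IntermediateField.adjoin K (N : Set Ω)) := by
    intro K hq hK
    have : FiniteDimensional F (K ⊔ N : IntermediateField F Ω) :=
      IntermediateField.finiteDimensional_sup K N
    have h1 : Normal F (K ⊔ N : IntermediateField F Ω) := inferInstance
    have h2 : IsGalois F (K ⊔ N : IntermediateField F Ω) := ⟨⟩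
    exact IsGalois.of_algEquiv (resEquiv N K)
  have gen : ∀ (K : IntermediateField F Ω)
      (γ : IntermediateField.adjoin K (N : Set Ω) ≃ₐ[F] IntermediateField.adjoin K (N : Set Ω)),
      (∀ x : K, γ (algebraMap K _ x) = algebraMap K _ x) →
      (∀ x : N, γ (incl N K x) = incl N K x) → γ = 1 := by
    intro K γ h1 h2
    ext ⟨x, hx⟩
    show (γ ⟨x, hx⟩ : Ω) = x
    induction hx using IntermediateField.adjoin_induction with
    | mem x hx => exact congrArg Subtype.val (h2 ⟨x, hx⟩)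
    | algebraMap x => exact congrArg Subtype.val (h1 x)
    | add x y hx hy hx' hy' =>
      have h3 : (⟨x + y, add_mem hx hy⟩ : IntermediateField.adjoin K (N : Set Ω)) =
        ⟨x, hx⟩ + ⟨y, hy⟩ := rfl
      rw [h3, map_add]
      show (γ ⟨x, hx⟩ : Ω) + (γ ⟨y, hy⟩ : Ω) = x + y
      rw [hx', hy']
    | inv x hx hx' =>
      have h3 : (⟨x⁻¹, inv_mem hx⟩ : IntermediateField.adjoin K (N : Set Ω)) =
        (⟨x, hx⟩)⁻¹ := rfl
      rw [h3, map_inv₀]
      show (γ ⟨x, hx⟩ : Ω)⁻¹ = x⁻¹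
      rw [hx']
    | mul x y hx hy hx' hy' =>
      have h3 : (⟨x * y, mul_mem hx hy⟩ : IntermediateField.adjoin K (N : Set Ω)) =
        ⟨x, hx⟩ * ⟨y, hy⟩ := rfl
      rw [h3, map_mul]
      show (γ ⟨x, hx⟩ : Ω) * (γ ⟨y, hy⟩ : Ω) = x * y
      rw [hx', hy']
  have hfd₁ := fin K₁ hfdK₁
  have hfd₂ := fin K₂ hfdK₂
  have hg₁ := gal K₁ hq₁ hfdK₁
  have hg₂ := gal K₂ hq₂ hfdK₂
  have hNFH₁ : NumberField (IntermediateField.adjoin K₁ (N : Set Ω)) :=
    NumberField.of_module_finite F _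
  have hNFH₂ : NumberField (IntermediateField.adjoin K₂ (N : Set Ω)) :=
    NumberField.of_module_finite F _
  let _ : Algebra N (IntermediateField.adjoin K₁ (N : Set Ω)) := (incl N K₁).toAlgebra
  let _ : Algebra N (IntermediateField.adjoin K₂ (N : Set Ω)) := (incl N K₂).toAlgebra
  have ht₁ : IsScalarTower F N (IntermediateField.adjoin K₁ (N : Set Ω)) :=
    IsScalarTower.of_algebraMap_eq fun x ↦ rfl
  have ht₂ : IsScalarTower F N (IntermediateField.adjoin K₂ (N : Set Ω)) :=
    IsScalarTower.of_algebraMap_eq fun x ↦ rfl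
  have hiso : IsEmpty (K₂ ≃ₐ[F] K₁) := ⟨fun e ↦ hne (eq_of_algEquiv e)⟩
  rcases mainB (F := F) (N := N) (K₁ := K₁) (H₁ := IntermediateField.adjoin K₁ (N : Set Ω))
    (K₂ := K₂) (H₂ := IntermediateField.adjoin K₂ (N : Set Ω)) hTRT hSIXT hINJ hEIG hVAL hSGN
    hARCHB hGRP hSPLIT hDESC hFAILB hLUN hNONV hSGNB hAUTS hd hK₁ hK₂ hiso hr hc
    (gen K₁) (gen K₂) p k Ω ψ hψ with h | h
  · exact hf₁ h
  · exact hf₂ h

end

end Pool.Agent.Helper59.SL
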