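import Pool.Agent.Helper59.SL.GoalsC

/-!
# Project SL (MP_fc6b1e_nt), Galois part, target A: statements
-/

namespace Pool.Agent.Helper59.SL

open Pool.Agent.Helper51.SigLeo Pool.Agent.Helper51.SixExp Pool.Agent.Helper17.SL NumberField Module
  TensorProduct

universe u v w x y z

/-- **ARCHA**, from ARCH. `F` real quadratic, `K/F` quadratic totally complex, `H/K` Galois; `φ₁`,
`φ₂` embeddings of `H` with different restrictions to `F`. An eigenvector of `Gal(H/K)` whose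
logarithms at `φ₁` and `φ₂` vanish is zero. PROOF. Let `φ : H →+* ℂ`. Its restriction to `F` is that
of some `φ_i` (`eq_or_eq_of_quadratic`), so its restriction to `K` is that of `φ_i` or its conjugate
(`eq_or_eq_conjugate`). So `φ` or `conjugate φ` is `φ_i ∘ g` with `g ∈ Gal(H/K)`
(`exists_gal_comp`), and `extHom (logC φ) x = extHom (logC (φ_i ∘ g)) x = extHom (logC φ_i) (g x) =
θ(g) extHom (logC φ_i) x = 0` (`logC_conjugate`, `extHom_logC_gal`). Apply ARCH. -/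
def S_ARCHA : Prop := ∀ (F : Type u) (K : Type v) (H : Type w) [Field F] [NumberField F]
  [IsTotallyReal F] [Field K] [NumberField K] [IsTotallyComplex K] [Algebra F K] [Field H]
  [NumberField H] [Algebra K H] [IsGalois K H], finrank ℚ F = 2 → finrank F K = 2 →
  ∀ (φ₁ φ₂ : H →+* ℂ), (φ₁.comp (algebraMap K H)).comp (algebraMap F K) ≠
    (φ₂.comp (algebraMap K H)).comp (algebraMap F K) →
  ∀ (θ : (H ≃ₐ[K] H) → ℂ) (x : ℂ ⊗[ℤ] Additive (𝓞 H)ˣ), Eig θ x →
    extHom (logC φ₁) x = 0 → extHom (logC φ₂) x = 0 → x = 0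

/-- **IND2**: the two archimedean logarithms on the `χ`-part are independent (`χ ≠ 1`, `φ₁`, `φ₂`
with different restrictions to `F`). PROOF. `n = [H:K]`; `n · extHom (logC φ) (e_χ(1 ⊗ u)) = ∑_g
χ(g⁻¹) log |φ(g u)|`, `G = Gal(H/K)`. The places `mk (φ₁ ∘ g)`, `mk (φ₂ ∘ g)`, `g ∈ G`, are pairwise
distinct: `mk_ne_of_restrict_ne` (the restriction of `φ_i ∘ g` to `F` is that of `φ_i`) and
`mk_ne_comp` (applied to `φ_i ∘ g` and `g⁻¹ g' ≠ 1`). For the real part: `log_relation_const`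
(`Helper51/SixExp/Arch.lean`) with `c w = (w.mult)⁻¹ (∑_g Re(a χ(g⁻¹)) [w = mk (φ₁ ∘ g)] +
∑_g Re(b χ(g⁻¹)) [w = mk (φ₂ ∘ g)])`, and the same for the imaginary part; all `mult` are equal to
`2` (`H` is totally complex, `isTotallyComplex_of_algebra K H`). So `a χ(g) = C = b χ(g)` for all
`g`, with the same `C`. As `χ(g) ≠ 1` for some `g`: `a = b = 0`. -/
def S_IND2 : Prop := ∀ (F : Type u) (K : Type v) (H : Type w) [Field F] [NumberField F]
  [IsTotallyReal F] [Field K] [NumberField K] [IsTotallyComplex K] [Algebra F K] [Field H]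
  [NumberField H] [Algebra K H] [IsGalois K H] (φ₁ φ₂ : H →+* ℂ),
  (φ₁.comp (algebraMap K H)).comp (algebraMap F K) ≠
    (φ₂.comp (algebraMap K H)).comp (algebraMap F K) →
  ∀ (χ : (H ≃ₐ[K] H) →* ℂˣ), χ ≠ 1 → ∀ a b : ℂ,
    (∀ u : Additive (𝓞 H)ˣ,
      a * extHom (logC φ₁) (eChi (finrank K H) χ unitsHom ((1 : ℂ) ⊗ₜ[ℤ] u)) +
      b * extHom (logC φ₂) (eChi (finrank K H) χ unitsHom ((1 : ℂ) ⊗ₜ[ℤ] u)) = 0) →
    a = 0 ∧ b = 0

/-- **CMC** (criterion for CM fields): `σ`, `σ'` embeddings of `H` in the algebraic closure `Ω` of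
`ℚ` and `h` an endomorphism of `H` such that for all embeddings `ι'` of `Ω` in `ℂ` the complex
conjugate of `ι' ∘ σ'` is `ι' ∘ σ ∘ h`. Then `H` (totally complex) is a CM field. PROOF. Claim: for
`x : H` there is `y : H` with `σ'(y) = σ(h x)`. Indeed if `s` is an automorphism of `Ω` fixing
`σ'(H)` and `ι' : Ω →+* ℂ` (exists: `Ω` is algebraic over `ℚ`), then `ι'(s(σ(h x)))`
is the complex conjugate of `ι'(s(σ'(x))) = ι'(σ'(x))` (hypothesis for `ι' ∘ s`), that is
`ι'(σ(h x))`; so `s(σ(h x)) = σ(h x)`, and `Ω` is Galois over `σ'(H)` (algebraically closed,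
characteristic zero; make `Ω` an `H`-algebra by `σ'`, `IsGalois H Ω`,
`IsGalois.mem_bot_iff_fixed` or `InfiniteGalois`). Let `τ x = y`: a ring endomorphism of `H`, so an
automorphism (finite dimension over `ℚ`). For every `φ : H →+* ℂ`, `φ = ι' ∘ σ'` for some `ι'`
(`exists_extend_embedding`), so `φ(τ x) = ι'(σ(h x))` is the complex conjugate of `φ(x)`: `τ` is the
complex conjugation for all `φ` (`IsCMField.of_forall_isConj` or
the definition: `H` is quadratic over the fixed field of `τ`, which is the maximal real subfield). -/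
def S_CMC : Prop := ∀ (H : Type u) (Ω : Type v) [Field H] [NumberField H] [IsTotallyComplex H]
  [Field Ω] [CharZero Ω] [Algebra.IsAlgebraic ℚ Ω] [IsAlgClosed Ω] (σ σ' : H →+* Ω)
  (h : H →+* H),
  (∀ ι' : Ω →+* ℂ, ComplexEmbedding.conjugate (ι'.comp σ') = (ι'.comp σ).comp h) → IsCMField H

/-- **FAILA**, from INJ and EIGSPAN, ARCHA, VAL: if both CM types fail, there are two linearly independent
eigenvectors `m₀`, `m₁ ∈ E ⊗ 𝓞_Hˣ` spanning the `χ₀`-part and vanishing determinants. Written as a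
statement about one set `T` of embeddings of `H` in `k`: `m_j` as in EIGSPAN (`n' ≤ 2`), INJ; if the
logarithms at the embeddings in `T` (nonempty) do not detect the `χ`-part, then `n' = 2` and there
are `c₀, c₁`, not both zero, with `c₀ Λ_τ(m₀) + c₁ Λ_τ(m₁) = 0` for all `τ ∈ T`. PROOF. `x` with `y = e_χ(x) ≠ 0`,
killed by all `extHom (logUnits L τ)`, `τ ∈ T`. `y` is an eigenvector (`eig_eChi`), so
`y = ∑ c_j • cc f (m_j)`, `c ≠ 0`. `n' = 0` is impossible; if `n' = 1`, `c_0 Λ_τ(m_0) = 0` for one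
`τ ∈ T`, so `m_0 = 0` by INJ, contradiction with the independence. -/
def S_FAILA : Prop := S_INJ.{u, v, w, x} → ∀ (p : ℕ) [Fact p.Prime] (k : Type v) [NormedField k]
  [NormedAlgebra ℚ_[p] k] [IsUltrametricDist k] [CompleteSpace k] [CharZero k] [IsAlgClosed k]
  (Ω : Type u) [Field Ω] [CharZero Ω] [Algebra.IsAlgebraic ℚ Ω] [IsAlgClosed Ω] (ι : Ω →+* k)
  (Λ : IwasawaLog p k) (E : Type w) [Field E] [NumberField E] (lam : E →+* Ω) (K : Type y)
  (H : Type x) [Field K] [Field H] [NumberField H] [Algebra K H] [FiniteDimensional K H]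
  (χ₀ : (H ≃ₐ[K] H) →* Eˣ) (n : ℕ) (m : Fin n → E ⊗[ℤ] Additive (𝓞 H)ˣ), n ≤ 2 →
  LinearIndependent E m →
  (∀ y : k ⊗[ℤ] Additive (𝓞 H)ˣ, Eig (fun γ : H ≃ₐ[K] H ↦ ι (lam (χ₀ γ : E))) y →
    ∃ c : Fin n → k, y = ∑ j, c j • cc (ι.comp lam) (m j)) →
  ∀ (χ : (H ≃ₐ[K] H) →* kˣ), (∀ g, (χ g : k) = ι (lam (χ₀ g : E))) →
  ∀ (T : Set (H →+* k)), T.Nonempty →
    ¬ InjectiveOn (finrank K H) χ unitsHom {ℓ | ∃ τ ∈ T, ℓ = logUnits Λ τ} →
    n = 2 ∧ ∃ c : Fin n → k, c ≠ 0 ∧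
      ∀ τ ∈ T, ∑ j, c j * extHom (logUnits Λ τ) (cc (ι.comp lam) (m j)) = 0

end Pool.Agent.Helper59.SL
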