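import Pool.Agent.Helper59.SL.Defs

/-!
# Project SL (MP_fc6b1e_nt), Galois part: the common layer, statements
-/

namespace Pool.Agent.Helper59.SL

open Pool.Agent.Helper51.SigLeo Pool.Agent.Helper51.SixExp Pool.Agent.Helper17.SL NumberField Module
  TensorProduct

universe u v w x y z

/-- **ARCH** (Dirichlet): an element of `ℂ ⊗ 𝓞_Hˣ` all of whose archimedean logarithms vanish is
zero. PROOF. `x = ∑ c_i ⊗ η_i`, `η_i = Units.fundSystem H i` (`span_fundSystem` in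
`Helper51/SigLeo/Core.lean` shows that the `1 ⊗ η_i` span; `Submodule.mem_span_range_iff_exists_fun`).
So `∑_i c_i log |φ(η_i)| = 0` for all `φ : H →+* ℂ` (each infinite place `w` is `|φ|` with
`φ = w.embedding`); take real and imaginary parts: `∑_i Re(c_i) logEmbedding(η_i) = 0` in
`logSpace H`. The `logEmbedding(η_i)` are linearly independent over `ℝ`: they are a `ℤ`-basis
(`Units.basisUnitLattice`, `Units.logEmbedding_fundSystem`) of the lattice `unitLattice H`, use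
`Basis.ofZLatticeBasis` or `Units.regulator_ne_zero`. So `c = 0` and `x = 0`. -/
def S_ARCH : Prop := ∀ (H : Type u) [Field H] [NumberField H] (x : ℂ ⊗[ℤ] Additive (𝓞 H)ˣ),
  (∀ φ : H →+* ℂ, extHom (logC φ) x = 0) → x = 0

/-- **BC** (independence and change of coefficients). PROOF. View `B` as a vector space over `A`
(`f.toAlgebra`). For an `A`-linear `ψ : B → A` let `ψ_M : B ⊗ M → A ⊗ M` be `ψ ⊗ id` (additive). On
pure tensors `ψ_M (c • cc f x) = ψ(c) • x` (for `x = a ⊗ m`: `ψ(c f(a)) ⊗ m = a ψ(c) ⊗ m`), so for all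
`x`. If `∑ c_i • cc f (w_i) = 0` (finite sum, `linearIndependent_iff'`) then `∑ ψ(c_i) • w_i = 0`, so
`ψ(c_i) = 0` for all `ψ`, so `c_i = 0` (`Module.forall_dual_apply_eq_zero_iff`). -/
def S_BC : Prop := ∀ (A : Type u) (B : Type v) [Field A] [Field B] (f : A →+* B) (M : Type w)
  [AddCommGroup M] (T : Type x) (m : T → A ⊗[ℤ] M), LinearIndependent A m →
  LinearIndependent B fun i ↦ cc f (m i)

/-- **TRT**: `S_TRANS` for one element of `E ⊗ 𝓞_Ωˣ` (`𝓞_Ωˣ` = all algebraic units of `Ω`). PROOF.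
Write `z = ∑_r b_r ⊗ y_r` (finite sum: induction, or `TensorProduct.exists_finset`). The image of
`y_r : (𝓞 Ω)ˣ` in `Ωˣ` (`Units.map (algebraMap (𝓞 Ω) Ω)`) is an algebraic unit (`IsUnitAlg`), and
`extHom (logUnits Λ ι) (cc (ι ∘ lam) z) = ∑_r ι(lam b_r) Λ(ι y_r)`; apply `S_TRANS`. -/
def S_TRT : Prop := ∀ (p : ℕ) [Fact p.Prime] (k : Type v) [NormedField k]
  [NormedAlgebra ℚ_[p] k] [IsUltrametricDist k] [CompleteSpace k] [CharZero k] (Ω : Type u)
  [Field Ω] [CharZero Ω] [Algebra.IsAlgebraic ℚ Ω] (ι : Ω →+* k) (Λ : IwasawaLog p k)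
  (E : Type w) [Field E] [NumberField E] (lam : E →+* Ω) (z : E ⊗[ℤ] Additive (𝓞 Ω)ˣ),
  extHom (logUnits Λ ι) (cc (ι.comp lam) z) = 0 →
  ∀ (ε : E →+* ℂ) (ι' : Ω →+* ℂ), extHom (logC ι') (cc ε z) = 0

/-- **SIXT**: `S_SIX` for a matrix of elements of `E ⊗ 𝓞_Ωˣ`. PROOF. As for TRT, `z i j = ∑_r b_ijr ⊗
y_ijr`, with the same index set `R = Fin N` for all `i j` (add terms `0 ⊗ 1`; or take for `R` a
common finite set of units `y_r`, `r ∈ R`, for all `i j`, and `b_ijr = 0` if `y_r` does not occur). -/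
def S_SIXT : Prop := ∀ (p : ℕ) [Fact p.Prime] (k : Type v) [NormedField k]
  [NormedAlgebra ℚ_[p] k] [IsUltrametricDist k] [CompleteSpace k] [CharZero k] (Ω : Type u)
  [Field Ω] [CharZero Ω] [Algebra.IsAlgebraic ℚ Ω] [IsAlgClosed Ω] (ι : Ω →+* k)
  (Λ : IwasawaLog p k) (E : Type w) [Field E] [NumberField E] (lam : E →+* Ω) (d l : ℕ)
  (Z : Fin d → Fin l → E ⊗[ℤ] Additive (𝓞 Ω)ˣ) (M : Fin d → Fin l → k),
  (∀ i j, M i j = extHom (logUnits Λ ι) (cc (ι.comp lam) (Z i j))) →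
  d + l < d * l → (∀ i i' j j', M i j * M i' j' = M i j' * M i' j) →
  (∃ a : Fin d → E, a ≠ 0 ∧ ∀ j, ∑ i, ι (lam (a i)) * M i j = 0) ∨
  (∃ c : Fin l → E, c ≠ 0 ∧ ∀ i, ∑ j, ι (lam (c j)) * M i j = 0)

/-- **INJ** (Brumer's theorem for one embedding of `H`), from TRT, ARCH, BC: an element `m` of
`E ⊗ 𝓞_Hˣ` whose `p`-adic logarithm vanishes for one embedding `τ` of `H` in `k` is zero. PROOF.
`τ = ι ∘ σ` with `σ : H → Ω` (`exists_lift_embedding`: `Ω` and `k` algebraically closed of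
characteristic zero). By `extHom_logUnits_pf`, `cc_pf` the hypothesis says that TRT applies to
`z = pf E σ m`: so `extHom (logC (ι' ∘ σ)) (cc ε m) = 0` for all `ε`, `ι'` (`extHom_logC_pf`). Every
`φ : H →+* ℂ` is `ι' ∘ σ` for some `ι'` (`exists_extend_embedding`, `Ω` is algebraic over `H` via
`σ`, as over `ℚ`). ARCH: `cc ε m = 0` for one `ε : E →+* ℂ`; BC (one vector, `T = Unit`): `m = 0`. -/
def S_INJ : Prop := ∀ (p : ℕ) [Fact p.Prime] (k : Type v) [NormedField k]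
  [NormedAlgebra ℚ_[p] k] [IsUltrametricDist k] [CompleteSpace k] [CharZero k] [IsAlgClosed k]
  (Ω : Type u) [Field Ω] [CharZero Ω] [Algebra.IsAlgebraic ℚ Ω] [IsAlgClosed Ω] (ι : Ω →+* k)
  (Λ : IwasawaLog p k) (E : Type w) [Field E] [NumberField E] (lam : E →+* Ω) (H : Type x)
  [Field H] [NumberField H] (τ : H →+* k) (m : E ⊗[ℤ] Additive (𝓞 H)ˣ),
  extHom (logUnits Λ τ) (cc (ι.comp lam) m) = 0 → m = 0

/-- **EIGSPAN**, from BC: eigenspaces and change of coefficients. Suppose that an eigenvector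
`x ∈ ℂ ⊗ 𝓞_Hˣ` of `Gal(H/F)` with the eigenvalues `ε(θ)` is zero if its logarithms at the `n`
embeddings `φ i` vanish. Then there are at most `n` linearly independent eigenvectors `m_j` in
`E ⊗ 𝓞_Hˣ` such that all the eigenvectors in `k ⊗ 𝓞_Hˣ`, for every `f : E → k`, are `k`-linear
combinations of the `m_j`. PROOF. `W = {x ∈ E ⊗ 𝓞_Hˣ : Eig θ x}` is a subspace of the finite
dimensional space `E ⊗ 𝓞_Hˣ` (`finite_tensor`); `m_j` = a basis of `W`. If there were `n + 1`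
independent elements of `W`, their images `cc ε m_j` would be independent (BC) eigenvectors
(`Eig.cc`), a nontrivial combination of them is killed by the `n` functionals `extHom (logC (φ i))`
(`Matrix.exists_mulVec_eq_zero_iff` or `LinearMap.exists_ne_zero...` by dimensions), contradiction.
If `y ∈ k ⊗ 𝓞_Hˣ` is an eigenvector, `y = eChi y` (`Eig.eChi_eq` with the character `ch f θ`), and
with `y = ∑ a_s ⊗ u_s`, `eChi y = ∑ a_s • eChi (1 ⊗ u_s) = ∑ a_s • cc f (eChi (1 ⊗ u_s))`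
(`cc_eChi`), where `eChi (1 ⊗ u_s) ∈ W` (`eig_eChi`). -/
def S_EIGSPAN : Prop := ∀ (F : Type u) (H : Type v) [Field F] [Field H] [NumberField H]
  [Algebra F H] [FiniteDimensional F H] [IsGalois F H] (E : Type w) [Field E] [NumberField E]
  (θ : (H ≃ₐ[F] H) →* Eˣ) (ε : E →+* ℂ) (n : ℕ) (φ : Fin n → (H →+* ℂ)),
  (∀ x : ℂ ⊗[ℤ] Additive (𝓞 H)ˣ, Eig (fun γ : H ≃ₐ[F] H ↦ ε (θ γ : E)) x →
    (∀ i, extHom (logC (φ i)) x = 0) → x = 0) →
  ∃ (n' : ℕ) (m : Fin n' → E ⊗[ℤ] Additive (𝓞 H)ˣ), n' ≤ n ∧ LinearIndependent E m ∧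
    (∀ j, Eig (fun γ : H ≃ₐ[F] H ↦ (θ γ : E)) (m j)) ∧
    ∀ (k : Type x) [Field k] [CharZero k] (f : E →+* k) (y : k ⊗[ℤ] Additive (𝓞 H)ˣ),
      Eig (fun γ : H ≃ₐ[F] H ↦ f (θ γ : E)) y → ∃ c : Fin n' → k, y = ∑ j, c j • cc f (m j)

/-- **VAL**: the values of a character of a finite group in `k` come from a number field. PROOF.
With `N` the order of `G`, `χ(g) ^ N = 1`. `X ^ N - 1` splits in `Ω` and has `N` distinct roots
there (characteristic zero), so all its roots in `k` are images of roots in `Ω`: for every `g` there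
is `r(g) ∈ Ωˣ` with `ι(r(g)) = χ(g)`; `r` is multiplicative because `ι` is injective. `E` = the
subfield of `Ω` generated over `ℚ` by the `r(g)`: finitely many integral elements
(`IntermediateField.finiteDimensional_adjoin`). -/
def S_VAL : Prop := ∀ (k : Type u) [Field k] [CharZero k] (Ω : Type v) [Field Ω] [CharZero Ω]
  [IsAlgClosed Ω] (ι : Ω →+* k) (G : Type w) [Group G] [Finite G] (χ : G →* kˣ),
  ∃ (E : IntermediateField ℚ Ω) (_ : NumberField E) (χ₀ : G →* Eˣ),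
    ∀ g, ι ((χ₀ g : Eˣ) : E) = ((χ g : kˣ) : k)

end Pool.Agent.Helper59.SL
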