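import Pool.Agent.Helper59.SL.GoalsC

/-!
# Project SL (MP_fc6b1e_nt), Galois part, target B: statements

`F` real quadratic, `N/F` Galois with `N` neither totally real nor totally complex, `K/F` quadratic
totally complex, `H` the compositum of `K` and `N`, `ψ` a faithful character of `Gal(N/F)`. The
`χ`-part of the units of `H` (`χ` = `ψ` on `Gal(H/K)`) is the sum of the `ψ`-part and of the
`ψη`-part for `Gal(H/F)`, `η` the quadratic character of `K/F`. The first is the `ψ`-part of the units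
of `N`. At the embeddings over the place `v₂` of `F` (not real in `N`) the logarithms of the first
vanish, at those over `v₁` (real in `N`) the logarithms of the second vanish.
-/

namespace Pool.Agent.Helper59.SL

open Pool.Agent.Helper51.SigLeo Pool.Agent.Helper51.SixExp Pool.Agent.Helper17.SL NumberField Module
  TensorProduct

universe u v w x y z

/-- `H` is generated by `K` and `N` (in the form used here). -/
def Gen (F N K H : Type*) [Field F] [Field N] [Field K] [Field H] [Algebra F H] [Algebra N H]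
    [Algebra K H] : Prop :=
  ∀ γ : H ≃ₐ[F] H, (∀ x : K, γ (algebraMap K H x) = algebraMap K H x) →
    (∀ x : N, γ (algebraMap N H x) = algebraMap N H x) → γ = 1

/-- `η` is the character of `Gal(H/F)` with kernel `Gal(H/K)`. -/
def IsSgn {F K H : Type*} [Field F] [Field K] [Field H] [Algebra F H] [Algebra K H]
    (η : (H ≃ₐ[F] H) →* ℤˣ) : Prop :=
  ∀ γ : H ≃ₐ[F] H, η γ = 1 ↔ ∀ x : K, γ (algebraMap K H x) = algebraMap K H x

/-- `v₁`, `v₂` are the two embeddings of `F`, `N` is real above `v₁` and not real above `v₂`. -/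
structure Sig {F N : Type*} [Field F] [Field N] [Algebra F N] (v₁ v₂ : F →+* ℂ) : Prop where
  ne : v₁ ≠ v₂
  real : ∀ φ : N →+* ℂ, φ.comp (algebraMap F N) = v₁ → ComplexEmbedding.conjugate φ = φ
  cplx : ∀ φ : N →+* ℂ, φ.comp (algebraMap F N) = v₂ → ComplexEmbedding.conjugate φ ≠ φ

/-- **SGN**. PROOF. `exists_real_of_not`, `exists_complex_of_not` (`Helper51/SixExp/Concrete.lean`) give
an embedding `φ₁` of `N` equal to its conjugate and one `φ₂` which is not; `v_i` = restriction of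
`φ_i`. If `φ` has the same restriction as `φ_i`, `φ = φ_i ∘ g` (`exists_gal_comp`), so `φ` is real if
and only if `φ_i` is. -/
def S_SGN : Prop := ∀ (F : Type u) (N : Type v) [Field F] [NumberField F] [Field N]
  [NumberField N] [Algebra F N] [IsGalois F N], ¬ IsTotallyReal N → ¬ IsTotallyComplex N →
  ∃ v₁ v₂ : F →+* ℂ, Sig (N := N) v₁ v₂

/-- **ARCHB**, from ARCH. `H/F` Galois, `F` real quadratic, `x ∈ ℂ ⊗ 𝓞_Hˣ` an eigenvector of
`Gal(H/F)` with eigenvalues `θ`, such that at all embeddings `φ` of `H` with the restriction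
`v' ≠ v` to `F` the complex conjugation `γ` (`conjugate φ = φ ∘ γ`) has `θ(γ) ≠ 1`. If the logarithm of
`x` vanishes at one embedding `φ₁` over `v`, then `x = 0`. PROOF. Let `φ : H →+* ℂ`. If its
restriction is `v`, then `φ = φ₁ ∘ g` (`exists_gal_comp`) and `extHom (logC φ) x = θ(g) · 0`
(`extHom_logC_gal`). Otherwise let `conjugate φ = φ ∘ γ` (`exists_gal_comp`; `conjugate φ` has the
same restriction to `F` as `φ`, `conjugate_real`); by `logC_conjugate`
`extHom (logC φ) x = θ(γ) extHom (logC φ) x`, so it is zero. ARCH. (`finrank ℚ F = 2` is not needed: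
`φ` is over `v` or not.) -/
def S_ARCHB : Prop := ∀ (F : Type u) (H : Type v) [Field F] [NumberField F] [IsTotallyReal F]
  [Field H] [NumberField H] [Algebra F H] [IsGalois F H] (θ : (H ≃ₐ[F] H) → ℂ)
  (x : ℂ ⊗[ℤ] Additive (𝓞 H)ˣ), Eig θ x → ∀ φ₁ : H →+* ℂ,
  (∀ (φ : H →+* ℂ) (γ : H ≃ₐ[F] H), φ.comp (algebraMap F H) ≠ φ₁.comp (algebraMap F H) →
    ComplexEmbedding.conjugate φ = φ.comp (γ : H →+* H) → θ γ ≠ 1) →
  extHom (logC φ₁) x = 0 → x = 0

/-- **GRP**: Galois groups. `c` is trivial on `N` and not on `K`; every element of `Gal(N/F)` lifts to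
`Gal(H/K)`; the sign character exists. PROOF. (1) Let `φ : H →+* ℂ` be over `v₁`
(`exists_extend_embedding`); `conjugate φ = φ ∘ c` with `c ∈ Gal(H/F)` (`exists_gal_comp`,
`conjugate_real`); `c * c = 1` since `φ` = the conjugate of `conjugate φ` = `φ ∘ c ∘ c`; on `N`: `φ|N`
is real (`Sig.real`), so `c` is trivial on `N` (`φ` injective); on `K`: `φ|K` is not real
(`conjugate_ne`), so `c` is not trivial on `K`. (2) For `g ∈ Gal(N/F)` let `γ ∈ Gal(H/F)` lift `g` (`AlgEquiv.restrictNormalHom_surjective`,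
or `exists_gal_comp` in an algebraic closure); if `γ` is not trivial on `K` replace it by `γ * c`,
whose restriction to `K` is the product of the nontrivial element of `Gal(K/F)` with itself (`gal_two`,
`tau_mul_tau`). (3) `η γ = 1` if `γ` is
trivial on `K` and `-1` otherwise; multiplicative by `gal_two`, `tau_mul_tau` for `K/F` and the
restriction homomorphism `AlgEquiv.restrictNormalHom K`. -/
def S_GRP : Prop := ∀ (F : Type u) (N : Type v) (K : Type w) (H : Type x) [Field F]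
  [NumberField F] [IsTotallyReal F] [Field N] [NumberField N] [Field K] [NumberField K]
  [IsTotallyComplex K] [Field H] [NumberField H] [Algebra F N] [Algebra F K] [Algebra F H]
  [Algebra N H] [Algebra K H] [IsScalarTower F N H] [IsScalarTower F K H] [IsGalois F N]
  [IsGalois F H] (v₁ v₂ : F →+* ℂ), finrank F K = 2 → Sig (N := N) v₁ v₂ →
  (∃ c : H ≃ₐ[F] H, c * c = 1 ∧ (∀ x : N, c (algebraMap N H x) = algebraMap N H x) ∧
    ∃ x : K, c (algebraMap K H x) ≠ algebraMap K H x) ∧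
  (∀ g : N ≃ₐ[F] N, ∃ γ : H ≃ₐ[K] H, ∀ x : N, γ (algebraMap N H x) = algebraMap N H (g x)) ∧
  ∃ η : (H ≃ₐ[F] H) →* ℤˣ, IsSgn (K := K) η

/-- **SPLIT**: the `χ`-part for `Gal(H/K)` is the sum of two parts for `Gal(H/F)`. Here `c` is as in
GRP, `r : Gal(H/F) → Gal(N/F)` is the restriction. PROOF. `y⁺ = (y + c y)/2`, `y⁻ = (y - c y)/2`,
`c y = extEnd (unitsHom c) y`. Let `γ ∈ Gal(H/F)`. If `γ` is trivial on `K` it is the restriction of
scalars of some `g ∈ Gal(H/K)`, `γ y = χ(g) y = ψ(r γ) y`, and `γ c = c γ` by `Gen` (both sides agree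
on `N`, `c` being trivial there and `γ(N) ⊂ N`; on `K`: `c(K) ⊂ K`, `γ` is trivial there), so `γ y± =
ψ(r γ) y±`. If `γ` is not trivial on `K`, `γ * c` is trivial on `K` (`gal_two`), `r (γ * c) = r γ` and
`γ y± = (γ c)(c y±) = ± (γ c) y± = ± ψ(r γ) y±`. -/
def S_SPLIT : Prop := ∀ (F : Type u) (N : Type v) (K : Type w) (H : Type x) [Field F]
  [CharZero F] [Field N] [Field K] [Field H] [Algebra F N] [Algebra F K] [Algebra F H]
  [Algebra N H] [Algebra K H] [IsScalarTower F N H] [IsScalarTower F K H] [IsGalois F N]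
  [IsGalois F H] (A : Type y) [Field A] [CharZero A] (ψ : (N ≃ₐ[F] N) →* Aˣ)
  (χ : (H ≃ₐ[K] H) →* Aˣ) (η : (H ≃ₐ[F] H) →* ℤˣ) (c : H ≃ₐ[F] H)
  (z : A ⊗[ℤ] Additive (𝓞 H)ˣ), finrank F K = 2 → Gen F N K H → IsSgn (K := K) η →
  c * c = 1 → (∀ x : N, c (algebraMap N H x) = algebraMap N H x) →
  (∃ x : K, c (algebraMap K H x) ≠ algebraMap K H x) →
  (∀ (γ : H ≃ₐ[K] H) (g : N ≃ₐ[F] N),
    (∀ x : N, γ (algebraMap N H x) = algebraMap N H (g x)) → χ γ = ψ g) →
  Eig (fun γ : H ≃ₐ[K] H ↦ (χ γ : A)) z →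
  ∃ y₁ y₂ : A ⊗[ℤ] Additive (𝓞 H)ˣ, z = y₁ + y₂ ∧
    Eig (fun γ : H ≃ₐ[F] H ↦ (ψ (AlgEquiv.restrictNormalHom N γ) : A)) y₁ ∧
    Eig (fun γ : H ≃ₐ[F] H ↦ (ψ (AlgEquiv.restrictNormalHom N γ) : A) * ((η γ : ℤ) : A)) y₂

/-- **PFI**: push-forward is injective. PROOF. `um σ` is injective (`σ` is injective on integers); `A` is
torsion free, so flat over `ℤ`; `Module.Flat.lTensor_preserves_injective_linearMap` (or
`baseChange`). -/
def S_PFI : Prop := ∀ (A : Type u) [Field A] [CharZero A] (H : Type v) (H' : Type w) [Field H]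
  [Field H'] (σ : H →+* H'), Function.Injective (pf A σ)

/-- **DESC**, from PFI: the `ψ`-part of the units of `H` comes from `N`. PROOF. Write `y = ∑ a_s ⊗ u_s`. For
`γ ∈ Gal(H/N)` (restrict scalars to `F`) `r γ = 1`, so `γ y = y` and, `N' = [H:N] = # Gal(H/N)`,
`N' y = ∑_γ γ y = ∑_s a_s ⊗ (∏_γ γ u_s)`. `∏_γ γ u` is fixed by `Gal(H/N)`, so is in `N`
(`IsGalois.mem_bot_iff_fixed` or `Algebra.algebraMap_norm_eq_prod...`), and integral with its inverse:
`∏_γ γ u = um (algebraMap N H) (n_u)`. So `y = pf A (algebraMap N H) z` with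
`z = N'⁻¹ ∑_s a_s ⊗ n_{u_s}`. For `g ∈ Gal(N/F)` let `γ ∈ Gal(H/F)` lift it: `pf (g z) = γ (pf z) = γ y =
ψ(g) y = pf (ψ(g) z)`, PFI. -/
def S_DESC : Prop := ∀ (F : Type u) (N : Type v) (H : Type w) [Field F] [NumberField F]
  [Field N] [NumberField N] [Field H] [NumberField H] [Algebra F N] [Algebra F H] [Algebra N H]
  [IsScalarTower F N H] [IsGalois F N] [IsGalois F H] (A : Type x) [Field A] [CharZero A]
  (ψ : (N ≃ₐ[F] N) →* Aˣ) (y : A ⊗[ℤ] Additive (𝓞 H)ˣ),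
  Eig (fun γ : H ≃ₐ[F] H ↦ (ψ (AlgEquiv.restrictNormalHom N γ) : A)) y →
  ∃ z : A ⊗[ℤ] Additive (𝓞 N)ˣ, pf A (algebraMap N H) z = y ∧
    Eig (fun γ : N ≃ₐ[F] N ↦ (ψ γ : A)) z

/-- **FAILB**, from INJ, SPLIT, DESC, GRP: what the failure at `K` means. `m₁ ∈ E ⊗ 𝓞_Nˣ` generates the
`ψ`-part over `k`, `m₂ ∈ E ⊗ 𝓞_Hˣ` the `ψη`-part. PROOF. There is `x` such that `z = e_χ(x) ≠ 0`
is killed by the logarithms at all `τ ∈ T`; `z` is an eigenvector (`eig_eChi`); by SPLIT (with `c` from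
GRP) and DESC, `z = a • pf (cc m₁) + b • cc m₂`, so `a Λ_τ(pf m₁) + b Λ_τ(m₂) = 0` for `τ = τ₁, τ₂`
(`Λ_τ(pf m₁) = extHom (logUnits Λ (τ ∘ (N → H))) (cc m₁)` by `extHom_logUnits_pf`). If `m₁ = 0`, then
`z = b • cc m₂`, `b ≠ 0`, so `Λ_τ₁(m₂) = 0`, `m₂ = 0` by INJ for `H`, `z = 0`, contradiction. If
`m₂ = 0`, then `z = a • pf (cc m₁)`, `a ≠ 0`, `m₁ = 0` by INJ for `N`, contradiction. As `a`, `b` are
not both zero the determinant vanishes. -/
def S_FAILB : Prop := S_INJ.{u, v, w, x} → ∀ (p : ℕ) [Fact p.Prime] (k : Type v) [NormedField k]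
  [NormedAlgebra ℚ_[p] k] [IsUltrametricDist k] [CompleteSpace k] [CharZero k] [IsAlgClosed k]
  (Ω : Type u) [Field Ω] [CharZero Ω] [Algebra.IsAlgebraic ℚ Ω] [IsAlgClosed Ω] (ι : Ω →+* k)
  (Λ : IwasawaLog p k) (E : Type w) [Field E] [NumberField E] (lam : E →+* Ω)
  (F : Type y) (N : Type x) (K : Type z) (H : Type x) [Field F]
  [NumberField F] [IsTotallyReal F] [Field N] [NumberField N] [Field K] [NumberField K]
  [IsTotallyComplex K] [Field H] [NumberField H] [Algebra F N] [Algebra F K] [Algebra F H]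
  [Algebra N H] [Algebra K H] [IsScalarTower F N H] [IsScalarTower F K H] [IsGalois F N]
  [IsGalois F H] (v₁ v₂ : F →+* ℂ) (ψ : (N ≃ₐ[F] N) →* Eˣ) (η : (H ≃ₐ[F] H) →* ℤˣ)
  (m₁ : E ⊗[ℤ] Additive (𝓞 N)ˣ) (m₂ : E ⊗[ℤ] Additive (𝓞 H)ˣ) (χ : (H ≃ₐ[K] H) →* kˣ)
  (T : Set (H →+* k)) (τ₁ τ₂ : H →+* k),
  S_SPLIT.{y, x, z, x, v} → S_DESC.{y, x, x, v} → S_GRP.{y, x, z, x} →
  finrank F K = 2 → Sig (N := N) v₁ v₂ → Gen F N K H → IsSgn (K := K) η →
  (∀ m : k ⊗[ℤ] Additive (𝓞 N)ˣ, Eig (fun γ : N ≃ₐ[F] N ↦ ι (lam (ψ γ : E))) m →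
    ∃ a : k, m = a • cc (ι.comp lam) m₁) →
  (∀ m : k ⊗[ℤ] Additive (𝓞 H)ˣ, Eig (fun γ : H ≃ₐ[F] H ↦
      ι (lam (ψ (AlgEquiv.restrictNormalHom N γ) : E)) * ((η γ : ℤ) : k)) m →
    ∃ a : k, m = a • cc (ι.comp lam) m₂) →
  (∀ (γ : H ≃ₐ[K] H) (g : N ≃ₐ[F] N),
    (∀ x : N, γ (algebraMap N H x) = algebraMap N H (g x)) → (χ γ : k) = ι (lam (ψ g : E))) →
  τ₁ ∈ T → τ₂ ∈ T →
  ¬ InjectiveOn (finrank K H) χ unitsHom {ℓ | ∃ τ ∈ T, ℓ = logUnits Λ τ} →
  m₁ ≠ 0 ∧ m₂ ≠ 0 ∧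
    extHom (logUnits Λ (τ₁.comp (algebraMap N H))) (cc (ι.comp lam) m₁) *
        extHom (logUnits Λ τ₂) (cc (ι.comp lam) m₂) =
      extHom (logUnits Λ (τ₂.comp (algebraMap N H))) (cc (ι.comp lam) m₁) *
        extHom (logUnits Λ τ₁) (cc (ι.comp lam) m₂)

/-- **LUN** (logarithms are unique): two Iwasawa logarithms agree on `k ⊗ 𝓞_Hˣ`. PROOF. `log_unique`
(`Helper51/SixExp/Family.lean`) with `Ω := H`, `ι := τ` (or any field containing `H`) gives
`logUnits L τ = logUnits L' τ`. -/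
def S_LUN : Prop := ∀ (p : ℕ) [Fact p.Prime] (k : Type v) [NormedField k]
  [NormedAlgebra ℚ_[p] k] [IsUltrametricDist k] (H : Type u) [Field H] [NumberField H]
  (τ : H →+* k) (L L' : IwasawaLog p k), logUnits L τ = logUnits L' τ

/-- **NONV**, from ARCHB and BC: nonvanishing of the archimedean logarithm of a nonzero eigenvector
`m ∈ E ⊗ 𝓞_Hˣ` at the right place; and vanishing at the other one. PROOF. If `extHom (logC φ) (cc ε m)
= 0` then ARCHB for `x = cc ε m` (`Eig.cc`) gives `cc ε m = 0`, and `m = 0` by BC (one vector). Second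
part: `conjugate φ = φ ∘ γ` (`exists_gal_comp`, `conjugate_real`), `ε(θ γ) ≠ 1`,
`extHom (logC φ) (cc ε m) = ε(θ γ) extHom (logC φ) (cc ε m)` (`logC_conjugate`, `extHom_logC_gal`). -/
def S_NONV : Prop := ∀ (F : Type u) (H : Type v) [Field F] [NumberField F] [IsTotallyReal F]
  [Field H] [NumberField H] [Algebra F H] [IsGalois F H] (E : Type w) [Field E] [NumberField E]
  (ε : E →+* ℂ) (θ : (H ≃ₐ[F] H) → E) (m : E ⊗[ℤ] Additive (𝓞 H)ˣ) (v : F →+* ℂ), Eig θ m →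
  m ≠ 0 →
  (∀ (φ : H →+* ℂ) (γ : H ≃ₐ[F] H), φ.comp (algebraMap F H) ≠ v →
    ComplexEmbedding.conjugate φ = φ.comp (γ : H →+* H) → θ γ ≠ 1) →
  ∀ φ : H →+* ℂ, (φ.comp (algebraMap F H) = v ↔ extHom (logC φ) (cc ε m) ≠ 0)

/-- **SGNB**: the eigenvalues of complex conjugations. `ψ` injective. For `φ : N →+* ℂ` over `v₂` with
conjugation `g`, `ψ(g) ≠ 1`. For `φ : H →+* ℂ` over `v₁` with conjugation `γ`,
`ψ(r γ) η(γ) ≠ 1`. PROOF. First: `φ` is not real, so `g ≠ 1`, `ψ(g) ≠ 1`. Second: `φ|N` is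
real, so `γ` is trivial on `N`, `r γ = 1`; `φ|K` is not real, so `γ` is not trivial on `K`,
`η(γ) ≠ 1`, `η(γ) = -1`, and the product is `-1 ≠ 1`. -/
def S_SGNB : Prop := ∀ (F : Type u) (N : Type v) (K : Type w) (H : Type x) [Field F]
  [NumberField F] [IsTotallyReal F] [Field N] [NumberField N] [Field K] [NumberField K]
  [IsTotallyComplex K] [Field H] [NumberField H] [Algebra F N] [Algebra F K] [Algebra F H]
  [Algebra N H] [Algebra K H] [IsScalarTower F N H] [IsScalarTower F K H] [IsGalois F N]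
  [IsGalois F H] (E : Type y) [Field E] [CharZero E] (v₁ v₂ : F →+* ℂ)
  (ψ : (N ≃ₐ[F] N) →* Eˣ) (η : (H ≃ₐ[F] H) →* ℤˣ), Sig (N := N) v₁ v₂ →
  Function.Injective ψ → IsSgn (K := K) η →
  (∀ (φ : N →+* ℂ) (g : N ≃ₐ[F] N), φ.comp (algebraMap F N) = v₂ →
    ComplexEmbedding.conjugate φ = φ.comp (g : N →+* N) → ((ψ g : Eˣ) : E) ≠ 1) ∧
  (∀ (φ : H →+* ℂ) (γ : H ≃ₐ[F] H), φ.comp (algebraMap F H) = v₁ →
    ComplexEmbedding.conjugate φ = φ.comp (γ : H →+* H) →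
    ((ψ (AlgEquiv.restrictNormalHom N γ) : Eˣ) : E) * ((η γ : ℤ) : E) ≠ 1)

/-- **AUTS**: an automorphism of `Ω` separating two quadratic fields. PROOF. `σ`, `σ'` agree on `F`
(`hF`). If every automorphism `s` of `Ω` trivial on `σ(K)` were trivial on `σ'(K')`, then `σ'(K')`
would be in `σ(K)` (`Ω` is Galois over `σ(K)`; make `Ω` a `K`-algebra by `σ`,
`IsGalois.mem_bot_iff_fixed`), and, by degrees over the common image of `F`, equal to it;
`σ⁻¹ ∘ σ'` would be an isomorphism `K' → K` over `F`. -/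
def S_AUTS : Prop := ∀ (F : Type u) (K : Type v) (K' : Type w) (Ω : Type x) [Field F]
  [NumberField F] [Field K] [NumberField K] [Field K'] [NumberField K'] [Algebra F K]
  [Algebra F K'] [Field Ω] [CharZero Ω] [Algebra.IsAlgebraic ℚ Ω] [IsAlgClosed Ω] (σ : K →+* Ω)
  (σ' : K' →+* Ω), finrank F K = 2 → finrank F K' = 2 →
  σ.comp (algebraMap F K) = σ'.comp (algebraMap F K') → IsEmpty (K' ≃ₐ[F] K) →
  ∃ s : Ω ≃+* Ω, (∀ x : K, s (σ x) = σ x) ∧ ∃ x : K', s (σ' x) ≠ σ' x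

end Pool.Agent.Helper59.SL
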