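import Pool.Agent.Helper59.SL.GoalsA

/-!
# Project SL (MP_fc6b1e_nt), Galois part, target A: assembly
-/

namespace Pool.Agent.Helper59.SL

open Pool.Agent.Helper51.SigLeo Pool.Agent.Helper51.SixExp Pool.Agent.Helper17.SL NumberField Module
  TensorProduct

universe u v w x y z

section linear

/-- Two vectors killed by the same nonzero linear form in dimension two. -/
theorem det_of_comb {k : Type*} [Field k] {c : Fin 2 → k} (hc : c ≠ 0) {a₀ a₁ b₀ b₁ : k}
    (ha : c 0 * a₀ + c 1 * a₁ = 0) (hb : c 0 * b₀ + c 1 * b₁ = 0) : a₀ * b₁ = a₁ * b₀ := by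
  by_cases h : c 0 = 0
  · have h1 : c 1 ≠ 0 := by
      intro h1
      apply hc
      ext i
      fin_cases i
      · exact h
      · exact h1
    rw [h, zero_mul, zero_add] at ha hb
    rw [(mul_eq_zero.mp ha).resolve_left h1, (mul_eq_zero.mp hb).resolve_left h1]
    ring
  · apply mul_left_cancel₀ h
    linear_combination b₁ * ha - a₁ * hb

end linear

section

variable {F : Type u} {K : Type w} {H : Type x} [Field F] [NumberField F] [IsTotallyReal F]
  [Field K] [NumberField K] [IsTotallyComplex K] [Algebra F K] [Field H] [NumberField H]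
  [Algebra K H] [IsGalois K H]

omit [NumberField K] [IsTotallyComplex K] in
/-- The embeddings attached to two CM types. -/
theorem exists_phi_psi {S₁ S₂ : Set (K →+* ℂ)} (hS₁ : IsCMType S₁) (hS₂ : IsCMType S₂)
    (hne : S₁ ≠ S₂) (hne' : S₂ ≠ S₁ᶜ) :
    (∃ φ, φ ∈ S₁ ∧ ComplexEmbedding.conjugate φ ∈ S₂) ∧ ∃ ψ, ψ ∈ S₁ ∧ ψ ∈ S₂ := by
  constructor
  · by_contra hall
    push Not at hall
    apply hne
    ext φ
    constructor
    · intro h1
      exact (hS₂ φ).mpr (hall φ h1)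
    · intro h2
      by_contra h1
      have h3 : ComplexEmbedding.conjugate φ ∈ S₁ := by
        by_contra h4
        exact h1 ((hS₁ φ).mpr h4)
      have h5 := hall _ h3
      rw [ComplexEmbedding.involutive_conjugate] at h5
      exact h5 h2
  · by_contra hall
    push Not at hall
    apply hne'
    ext ψ
    rw [Set.mem_compl_iff]
    constructor
    · intro h2 h1
      exact hall ψ h1 h2
    · intro h1
      have h3 : ComplexEmbedding.conjugate ψ ∈ S₁ := by
        by_contra h4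
        exact h1 ((hS₁ ψ).mpr h4)
      exact (hS₂ ψ).mpr (hall _ h3)

/-- **Target A.** -/
theorem mainA (hTRT : S_TRT.{y, v, y}) (hSIXT : S_SIXT.{y, v, y}) (hINJ : S_INJ.{y, v, y, x})
    (hEIG : S_EIGSPAN.{w, x, y, v}) (hVAL : S_VAL.{v, y, x}) (hARCHA : S_ARCHA.{u, w, x})
    (hIND2 : S_IND2.{u, w, x}) (hCMC : S_CMC.{x, y}) (hFAILA : S_FAILA.{y, v, y, x, w})
    (hd : finrank ℚ F = 2) (hKF : finrank F K = 2) (hCM : ¬ IsCMField H) (p : ℕ) [Fact p.Prime]
    (k : Type v) [NormedField k] [NormedAlgebra ℚ_[p] k] [IsUltrametricDist k] [CompleteSpace k]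
    [CharZero k] [IsAlgClosed k] (Ω : Type y) [Field Ω] [CharZero Ω] [Algebra.IsAlgebraic ℚ Ω]
    [IsAlgClosed Ω] (ιinf : Ω →+* ℂ) (ιp : Ω →+* k) (S₁ S₂ : Set (K →+* ℂ)) (hS₁ : IsCMType S₁)
    (hS₂ : IsCMType S₂) (hne : S₁ ≠ S₂) (hne' : S₂ ≠ S₁ᶜ) (χ : (H ≃ₐ[K] H) →* kˣ)
    (hχ : Function.Injective χ) (L : IwasawaLog p k) :
    InjectiveOn (finrank K H) χ unitsHom (logSigma ιinf ιp S₁ L) ∨
      InjectiveOn (finrank K H) χ unitsHom (logSigma ιinf ιp S₂ L) := by
  have hTC : IsTotallyComplex H := isTotallyComplex_of_algebra K H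
  have hfd : FiniteDimensional K H := FiniteDimensional.right ℚ K H
  by_contra hcon
  push Not at hcon
  obtain ⟨hf1, hf2⟩ := hcon
  -- the coefficient field
  obtain ⟨E, hNE, χ₀, hχ₀⟩ := hVAL k Ω ιp (H ≃ₐ[K] H) χ
  set lam : E →+* Ω := algebraMap E Ω with hlam
  have hχ₀' : ∀ g, ((χ g : kˣ) : k) = ιp (lam (χ₀ g : E)) := fun g ↦ (hχ₀ g).symm
  -- the embeddings
  obtain ⟨⟨φ, hφ1, hφ2⟩, ψ, hψ1, hψ2⟩ := exists_phi_psi hS₁ hS₂ hne hne'
  have hφψ : φ.comp (algebraMap F K) ≠ ψ.comp (algebraMap F K) := by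
    intro h
    rcases eq_or_eq_conjugate hKF φ ψ h with h1 | h1
    · rw [h1] at hψ2
      exact (hS₂ φ).mp hψ2 hφ2
    · rw [h1] at hψ1
      exact (hS₁ φ).mp hφ1 hψ1
  obtain ⟨κ₁, hκ₁⟩ := exists_lift_embedding ιinf φ
  obtain ⟨κ₂, hκ₂⟩ := exists_lift_embedding ιinf ψ
  obtain ⟨κ₁', hκ₁'⟩ := exists_lift_embedding ιinf (ComplexEmbedding.conjugate φ)
  obtain ⟨σ₁, hσ₁⟩ := exists_extend_embedding (H := H) κ₁
  obtain ⟨σ₂, hσ₂⟩ := exists_extend_embedding (H := H) κ₂
  obtain ⟨σ₁', hσ₁'⟩ := exists_extend_embedding (H := H) κ₁'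
  have hκF : κ₁'.comp (algebraMap F K) = κ₁.comp (algebraMap F K) := by
    ext y
    apply ιinf.injective
    have h1 : (ιinf.comp κ₁').comp (algebraMap F K) = (ιinf.comp κ₁).comp (algebraMap F K) := by
      rw [hκ₁, hκ₁', ComplexEmbedding.conjugate_comp, conjugate_real]
    exact RingHom.congr_fun h1 y
  have hκne : κ₁' ≠ κ₁ := by
    intro h
    rw [h, hκ₁] at hκ₁'
    exact conjugate_ne φ hκ₁'.symm
  have hF12 : ∀ ι' : Ω →+* ℂ, ((ι'.comp σ₂).comp (algebraMap K H)).comp (algebraMap F K) ≠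
      ((ι'.comp σ₁).comp (algebraMap K H)).comp (algebraMap F K) := by
    intro ι' h
    apply hφψ
    rw [← hκ₁, ← hκ₂]
    ext y
    have h1 : κ₂ (algebraMap F K y) = κ₁ (algebraMap F K y) := by
      apply ι'.injective
      rw [← hσ₂, ← hσ₁]
      exact RingHom.congr_fun h y
    show ιinf (κ₁ (algebraMap F K y)) = ιinf (κ₂ (algebraMap F K y))
    rw [h1]
  -- the basis
  obtain ⟨n, m, hn, hli, hmE, hspan⟩ := hEIG K H E χ₀ (ιinf.comp lam) 2
    ![ιinf.comp σ₂, ιinf.comp σ₁] (fun x hx h0 ↦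
      hARCHA F K H hd hKF _ _ (hF12 ιinf) _ x hx (h0 0) (h0 1))
  have hT : ∀ S : Set (K →+* ℂ), logSigma (H := H) ιinf ιp S L = {ℓ | ∃ τ ∈ {τ : H →+* k |
      ∃ σ : H →+* Ω, ιinf.comp (σ.comp (algebraMap K H)) ∈ S ∧ τ = ιp.comp σ},
        ℓ = logUnits L τ} := by
    intro S
    ext ℓ
    constructor
    · rintro ⟨σ, hσ, rfl⟩
      exact ⟨_, ⟨σ, hσ, rfl⟩, rfl⟩
    · rintro ⟨_, ⟨σ, hσ, rfl⟩, rfl⟩
      exact ⟨σ, hσ, rfl⟩
  have hm1 : ιp.comp σ₁ ∈ {τ : H →+* k | ∃ σ : H →+* Ω,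
      ιinf.comp (σ.comp (algebraMap K H)) ∈ S₁ ∧ τ = ιp.comp σ} :=
    ⟨σ₁, by rw [hσ₁, hκ₁]; exact hφ1, rfl⟩
  have hm2 : ιp.comp σ₂ ∈ {τ : H →+* k | ∃ σ : H →+* Ω,
      ιinf.comp (σ.comp (algebraMap K H)) ∈ S₁ ∧ τ = ιp.comp σ} :=
    ⟨σ₂, by rw [hσ₂, hκ₂]; exact hψ1, rfl⟩
  have hm1' : ιp.comp σ₁' ∈ {τ : H →+* k | ∃ σ : H →+* Ω,
      ιinf.comp (σ.comp (algebraMap K H)) ∈ S₂ ∧ τ = ιp.comp σ} :=
    ⟨σ₁', by rw [hσ₁', hκ₁']; exact hφ2, rfl⟩
  have hm2' : ιp.comp σ₂ ∈ {τ : H →+* k | ∃ σ : H →+* Ω,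
      ιinf.comp (σ.comp (algebraMap K H)) ∈ S₂ ∧ τ = ιp.comp σ} :=
    ⟨σ₂, by rw [hσ₂, hκ₂]; exact hψ2, rfl⟩
  rw [hT] at hf1 hf2
  obtain ⟨hn2, c, hc0, hc⟩ := hFAILA hINJ p k Ω ιp L E lam K H χ₀ n m hn hli
    (fun y hy ↦ hspan k (ιp.comp lam) y hy) χ hχ₀' _ ⟨_, hm1⟩ hf1
  obtain ⟨-, c', hc0', hc'⟩ := hFAILA hINJ p k Ω ιp L E lam K H χ₀ n m hn hli
    (fun y hy ↦ hspan k (ιp.comp lam) y hy) χ hχ₀' _ ⟨_, hm1'⟩ hf2
  subst hn2
  have e1 := hc _ hm1
  have e2 := hc _ hm2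
  have e1' := hc' _ hm1'
  have e2' := hc' _ hm2'
  rw [Fin.sum_univ_two] at e1 e2 e1' e2'
  have d1 := det_of_comb hc0 e1 e2
  have d2 := det_of_comb hc0' e1' e2'
  have hA : extHom (logUnits L (ιp.comp σ₂)) (cc (ιp.comp lam) (m 0)) ≠ 0 := fun h ↦
    hli.ne_zero 0 (hINJ p k Ω ιp L E lam H (ιp.comp σ₂) (m 0) h)
  set x₂ := extHom (logUnits L (ιp.comp σ₂)) (cc (ιp.comp lam) (m 0)) with hx₂
  set y₂ := extHom (logUnits L (ιp.comp σ₂)) (cc (ιp.comp lam) (m 1)) with hy₂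
  set x₁ := extHom (logUnits L (ιp.comp σ₁)) (cc (ιp.comp lam) (m 0)) with hx₁
  set y₁ := extHom (logUnits L (ιp.comp σ₁)) (cc (ιp.comp lam) (m 1)) with hy₁
  set x₁' := extHom (logUnits L (ιp.comp σ₁')) (cc (ιp.comp lam) (m 0)) with hx₁'
  set y₁' := extHom (logUnits L (ιp.comp σ₁')) (cc (ιp.comp lam) (m 1)) with hy₁'
  have d3 : x₁ * y₁' = x₁' * y₁ := by
    apply mul_left_cancel₀ hA
    linear_combination x₁' * d1 - x₁ * d2
  have hMM : ∀ i j, (![![x₂, x₁, x₁'], ![y₂, y₁, y₁']] : Fin 2 → Fin 3 → k) i j =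
      extHom (logUnits L (ιp.comp ((![σ₂, σ₁, σ₁'] : Fin 3 → (H →+* Ω)) j)))
        (cc (ιp.comp lam) (m i)) := by
    intro i j
    fin_cases i <;> fin_cases j <;> rfl
  rcases hSIXT p k Ω ιp L E lam 2 3 (fun i j ↦ pf E (![σ₂, σ₁, σ₁'] j) (m i))
    ![![x₂, x₁, x₁'], ![y₂, y₁, y₁']] (fun i j ↦ by
      rw [cc_pf, extHom_logUnits_pf, hMM]) (by norm_num) (by
      intro i i' j j'
      fin_cases i <;> fin_cases i' <;> fin_cases j <;> fin_cases j' <;>
        simp only [Fin.zero_eta, Fin.mk_one, Fin.reduceFinMk, Fin.isValue, Matrix.cons_val_zero,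
          Matrix.cons_val_one, Matrix.cons_val] <;>
        first
        | ring1
        | linear_combination d1
        | linear_combination -d1
        | linear_combination d2
        | linear_combination -d2
        | linear_combination d3
        | linear_combination -d3) with ⟨a, ha0, ha⟩ | ⟨c, hc0, hc⟩
  · -- dependent rows
    apply ha0
    have h1 : ∑ i, a i • m i = 0 := by
      apply hINJ p k Ω ιp L E lam H (ιp.comp σ₂)
      rw [map_sum, map_sum]
      rw [← ha 0]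
      refine Finset.sum_congr rfl fun i _ ↦ ?_
      rw [cc_smul, map_smul, smul_eq_mul, hMM]
      rfl
    have h2 := Fintype.linearIndependent_iff.1 hli a h1
    ext i
    rw [h2 i]
    rfl
  · -- dependent columns
    -- the relation between archimedean logarithms
    have hrel : ∀ (u : Additive (𝓞 H)ˣ) (ε : E →+* ℂ) (ι' : Ω →+* ℂ),
        ∑ j, ε (c j) * extHom (logC (ι'.comp ((![σ₂, σ₁, σ₁'] : Fin 3 → (H →+* Ω)) j)))
          (eChi (finrank K H) (ch ε χ₀) unitsHom ((1 : ℂ) ⊗ₜ[ℤ] u)) = 0 := by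
      intro u ε ι'
      set t : E ⊗[ℤ] Additive (𝓞 H)ˣ := eChi (finrank K H) χ₀ unitsHom ((1 : E) ⊗ₜ[ℤ] u) with ht
      have htE : Eig (fun γ : H ≃ₐ[K] H ↦ (χ₀ γ : E)) t := eig_eChi _ _ _
      obtain ⟨b, hb⟩ := hspan k (ιp.comp lam) (cc (ιp.comp lam) t) (htE.cc _)
      have h1 : extHom (logUnits L ιp) (cc (ιp.comp lam)
          (∑ j, c j • pf E ((![σ₂, σ₁, σ₁'] : Fin 3 → (H →+* Ω)) j) t)) = 0 := by
        rw [map_sum, map_sum]
        have h2 : ∀ j, extHom (logUnits L ιp) (cc (ιp.comp lam)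
            (c j • pf E ((![σ₂, σ₁, σ₁'] : Fin 3 → (H →+* Ω)) j) t)) =
            ∑ i, b i * (ιp (lam (c j)) *
              (![![x₂, x₁, x₁'], ![y₂, y₁, y₁']] : Fin 2 → Fin 3 → k) i j) := by
          intro j
          rw [cc_smul, map_smul, cc_pf, extHom_logUnits_pf, hb, map_sum, smul_eq_mul,
            Finset.mul_sum]
          refine Finset.sum_congr rfl fun i _ ↦ ?_
          rw [map_smul, smul_eq_mul, hMM]
          show ιp (lam (c j)) * _ = _
          ring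
        rw [Finset.sum_congr rfl fun j _ ↦ h2 j, Finset.sum_comm]
        refine Finset.sum_eq_zero fun i _ ↦ ?_
        rw [← Finset.mul_sum, hc i, mul_zero]
      have h3 := hTRT p k Ω ιp L E lam _ h1 ε ι'
      rw [map_sum, map_sum] at h3
      rw [← h3]
      refine Finset.sum_congr rfl fun j _ ↦ ?_
      rw [cc_smul, map_smul, cc_pf, extHom_logC_pf, smul_eq_mul, ht, cc_eChi, cc_tmul, map_one]
      rfl
    -- the automorphism attached to an embedding of `Ω` in `ℂ`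
    have hex : ∀ ι' : Ω →+* ℂ, ∃ h : H ≃ₐ[K] H,
        ComplexEmbedding.conjugate (ι'.comp σ₁') = (ι'.comp σ₁).comp (h : H →+* H) := by
      intro ι'
      apply exists_gal_comp
      rw [ComplexEmbedding.conjugate_comp, RingHom.comp_assoc, RingHom.comp_assoc, hσ₁, hσ₁']
      have h1 : (ι'.comp κ₁).comp (algebraMap F K) = (ι'.comp κ₁').comp (algebraMap F K) := by
        rw [RingHom.comp_assoc, RingHom.comp_assoc, hκF]
      rcases eq_or_eq_conjugate hKF _ _ h1 with h2 | h2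
      · exfalso
        apply hκne
        ext y
        apply ι'.injective
        exact RingHom.congr_fun h2 y
      · rw [h2, ComplexEmbedding.involutive_conjugate]
    have hconst : ∃ h : H ≃ₐ[K] H, ∀ ι' : Ω →+* ℂ,
        ComplexEmbedding.conjugate (ι'.comp σ₁') = (ι'.comp σ₁).comp (h : H →+* H) := by
      by_cases hχ1 : χ₀ = 1
      · have hsub : ∀ g : H ≃ₐ[K] H, g = 1 := by
          intro g
          apply hχ
          apply Units.ext
          rw [hχ₀', hχ₀', hχ1]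
          rfl
        refine ⟨1, fun ι' ↦ ?_⟩
        obtain ⟨h, hh⟩ := hex ι'
        rw [hsub h] at hh
        exact hh
      · have key : ∀ (ι' : Ω →+* ℂ) (h : H ≃ₐ[K] H),
            ComplexEmbedding.conjugate (ι'.comp σ₁') = (ι'.comp σ₁).comp (h : H →+* H) →
            c 0 = 0 ∧ c 1 + c 2 * (χ₀ h : E) = 0 := by
          intro ι' h hh
          set ε : E →+* ℂ := ι'.comp lam with hε
          have hch : ch ε χ₀ ≠ 1 := by
            intro h1
            apply hχ1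
            ext g
            have h2 := congrArg (fun f : (H ≃ₐ[K] H) →* ℂˣ ↦ ((f g : ℂˣ) : ℂ)) h1
            simp only [ch_coe, MonoidHom.one_apply, Units.val_one] at h2
            have h3 : ((χ₀ g : Eˣ) : E) = 1 := ε.injective (by rw [h2, map_one])
            rw [h3]
            rfl
          have h4 := hIND2 F K H (ι'.comp σ₂) (ι'.comp σ₁) (hF12 ι') (ch ε χ₀) hch (ε (c 0))
            (ε (c 1 + c 2 * (χ₀ h : E))) (fun u ↦ by
              have h5 := hrel u ε ι'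
              rw [Fin.sum_univ_three] at h5
              simp only [Matrix.cons_val_zero, Matrix.cons_val_one, Matrix.cons_val] at h5
              have h6 : extHom (logC (ι'.comp σ₁'))
                  (eChi (finrank K H) (ch ε χ₀) unitsHom ((1 : ℂ) ⊗ₜ[ℤ] u)) =
                  ε (χ₀ h : E) * extHom (logC (ι'.comp σ₁))
                    (eChi (finrank K H) (ch ε χ₀) unitsHom ((1 : ℂ) ⊗ₜ[ℤ] u)) := by
                rw [← logC_conjugate, hh, extHom_logC_gal,
                  eig_eChi (finrank K H) (ch ε χ₀) ((1 : ℂ) ⊗ₜ[ℤ] u) h, map_smul, smul_eq_mul]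
                rfl
              rw [h6] at h5
              rw [map_add, map_mul]
              linear_combination h5)
          obtain ⟨h7, h8⟩ := h4
          exact ⟨(map_eq_zero ε).mp h7, (map_eq_zero ε).mp h8⟩
        have hc2 : c 2 ≠ 0 := by
          intro h2
          obtain ⟨h, hh⟩ := hex ιinf
          obtain ⟨h0, h1⟩ := key ιinf h hh
          rw [h2, zero_mul, add_zero] at h1
          apply hc0
          ext i
          fin_cases i
          · exact congrArg _ h0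
          · exact congrArg _ h1
          · exact congrArg _ h2
        obtain ⟨h, hh⟩ := hex ιinf
        refine ⟨h, fun ι' ↦ ?_⟩
        obtain ⟨h', hh'⟩ := hex ι'
        have h1 := (key ιinf h hh).2
        have h2 := (key ι' h' hh').2
        have h3 : (χ₀ h' : E) = (χ₀ h : E) := by
          apply mul_left_cancel₀ hc2
          linear_combination h2 - h1
        have h4 : h' = h := by
          apply hχ
          apply Units.ext
          rw [hχ₀', hχ₀', h3]
        rw [← h4]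
        exact hh'
    obtain ⟨h, hh⟩ := hconst
    exact hCM (hCMC H Ω σ₁ σ₁' (h : H →+* H) hh)

end

end Pool.Agent.Helper59.SL
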