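import Pool.Agent.Helper59.SL.GoalsG
import Pool.Agent.Helper59.SL.MainA

/-!
# Project SL (MP_fc6b1e_nt), Galois part, target B: assembly
-/

set_option linter.unusedSectionVars false

namespace Pool.Agent.Helper59.SL

open Pool.Agent.Helper51.SigLeo Pool.Agent.Helper51.SixExp Pool.Agent.Helper17.SL NumberField Module
  TensorProduct

universe u v

/-- Extension of an embedding of a subfield of `Ω` to `Ω`. -/
theorem exists_ext {F : Type*} [Field F] [CharZero F] {Ω : Type*} [Field Ω] [CharZero Ω]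
    [Algebra.IsAlgebraic ℚ Ω] (f : F →+* Ω) (w : F →+* ℂ) : ∃ ι' : Ω →+* ℂ, ι'.comp f = w := by
  let _ : Algebra F Ω := f.toAlgebra
  have h1 : Algebra.IsAlgebraic F Ω := Algebra.IsAlgebraic.tower_top (K := ℚ) F
  exact exists_extend_embedding (K := F) (H := Ω) w

section

variable {F N K₁ H₁ K₂ H₂ : Type u} [Field F] [NumberField F] [IsTotallyReal F] [Field N]
  [NumberField N] [Algebra F N] [IsGalois F N]
  [Field K₁] [NumberField K₁] [IsTotallyComplex K₁] [Algebra F K₁]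
  [Field H₁] [NumberField H₁] [Algebra F H₁] [Algebra N H₁] [Algebra K₁ H₁]
  [IsScalarTower F N H₁] [IsScalarTower F K₁ H₁] [IsGalois F H₁]
  [Field K₂] [NumberField K₂] [IsTotallyComplex K₂] [Algebra F K₂]
  [Field H₂] [NumberField H₂] [Algebra F H₂] [Algebra N H₂] [Algebra K₂ H₂]
  [IsScalarTower F N H₂] [IsScalarTower F K₂ H₂] [IsGalois F H₂]

/-- The core of the argument, for aligned embeddings. -/
theorem coreB (hTRT : S_TRT.{u, v, u}) (hSIXT : S_SIXT.{u, v, u}) (hINJ : S_INJ.{u, v, u, u})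
    (hNONV : S_NONV.{u, u, u}) (hSGNB : S_SGNB.{u, u, u, u, u}) (hAUTS : S_AUTS.{u, u, u, u})
    (hd : finrank ℚ F = 2) (hK₁ : finrank F K₁ = 2) (hK₂ : finrank F K₂ = 2)
    (hiso : IsEmpty (K₂ ≃ₐ[F] K₁)) (v₁ v₂ : F →+* ℂ) (hsig : Sig (N := N) v₁ v₂)
    (p : ℕ) [Fact p.Prime] (k : Type v) [NormedField k] [NormedAlgebra ℚ_[p] k]
    [IsUltrametricDist k] [CompleteSpace k] [CharZero k] [IsAlgClosed k] (Ω : Type u) [Field Ω]
    [CharZero Ω] [Algebra.IsAlgebraic ℚ Ω] [IsAlgClosed Ω] (ι : Ω →+* k) (Λ : IwasawaLog p k)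
    (E : Type u) [Field E] [NumberField E] (lam : E →+* Ω) (ψ : (N ≃ₐ[F] N) →* Eˣ)
    (hψ : Function.Injective ψ) (η₁ : (H₁ ≃ₐ[F] H₁) →* ℤˣ) (hη₁ : IsSgn (K := K₁) η₁)
    (η₂ : (H₂ ≃ₐ[F] H₂) →* ℤˣ) (hη₂ : IsSgn (K := K₂) η₂)
    (m₁ : E ⊗[ℤ] Additive (𝓞 N)ˣ) (hm₁ : Eig (fun γ : N ≃ₐ[F] N ↦ (ψ γ : E)) m₁) (hm₁0 : m₁ ≠ 0)
    (m₂ : E ⊗[ℤ] Additive (𝓞 H₁)ˣ) (hm₂ : Eig (fun γ : H₁ ≃ₐ[F] H₁ ↦
      (ψ (AlgEquiv.restrictNormalHom N γ) : E) * ((η₁ γ : ℤ) : E)) m₂) (hm₂0 : m₂ ≠ 0)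
    (m₃ : E ⊗[ℤ] Additive (𝓞 H₂)ˣ) (hm₃ : Eig (fun γ : H₂ ≃ₐ[F] H₂ ↦
      (ψ (AlgEquiv.restrictNormalHom N γ) : E) * ((η₂ γ : ℤ) : E)) m₃) (hm₃0 : m₃ ≠ 0)
    (τ₁ τ₂ : H₁ →+* k) (τ₁' τ₂' : H₂ →+* k)
    (h1 : τ₁.comp (algebraMap N H₁) = τ₁'.comp (algebraMap N H₂))
    (h12 : τ₁.comp (algebraMap F H₁) ≠ τ₂.comp (algebraMap F H₁))
    (d₁ : extHom (logUnits Λ (τ₁.comp (algebraMap N H₁))) (cc (ι.comp lam) m₁) *
        extHom (logUnits Λ τ₂) (cc (ι.comp lam) m₂) =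
      extHom (logUnits Λ (τ₂.comp (algebraMap N H₁))) (cc (ι.comp lam) m₁) *
        extHom (logUnits Λ τ₁) (cc (ι.comp lam) m₂))
    (d₂ : extHom (logUnits Λ (τ₁.comp (algebraMap N H₁))) (cc (ι.comp lam) m₁) *
        extHom (logUnits Λ τ₂') (cc (ι.comp lam) m₃) =
      extHom (logUnits Λ (τ₂.comp (algebraMap N H₁))) (cc (ι.comp lam) m₁) *
        extHom (logUnits Λ τ₁') (cc (ι.comp lam) m₃)) : False := by
  -- lifts to `Ω`
  obtain ⟨σ₁, hσ₁⟩ := exists_lift_embedding ι τ₁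
  obtain ⟨σ₂, hσ₂⟩ := exists_lift_embedding ι τ₂
  obtain ⟨σ₁', hσ₁'⟩ := exists_lift_embedding ι τ₁'
  obtain ⟨σ₂', hσ₂'⟩ := exists_lift_embedding ι τ₂'
  have hN1 : ∀ x : N, σ₁ (algebraMap N H₁ x) = σ₁' (algebraMap N H₂ x) := by
    intro x
    apply ι.injective
    have := RingHom.congr_fun h1 x
    rw [← hσ₁, ← hσ₁'] at this
    exact this
  have hF1 : ∀ x : F, σ₁ (algebraMap F H₁ x) = σ₁' (algebraMap F H₂ x) := by
    intro x
    rw [IsScalarTower.algebraMap_apply F N H₁, IsScalarTower.algebraMap_apply F N H₂, hN1]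
  have hne : σ₁.comp (algebraMap F H₁) ≠ σ₂.comp (algebraMap F H₁) := by
    intro h
    apply h12
    rw [← hσ₁, ← hσ₂, RingHom.comp_assoc, h, RingHom.comp_assoc]
  obtain ⟨ε⟩ : Nonempty (E →+* ℂ) := inferInstance
  -- archimedean logarithms
  obtain ⟨sN, sH₁⟩ := hSGNB F N K₁ H₁ E v₁ v₂ ψ η₁ hsig hψ hη₁
  obtain ⟨-, sH₂⟩ := hSGNB F N K₂ H₂ E v₁ v₂ ψ η₂ hsig hψ hη₂
  have n₁ := hNONV F N E ε _ m₁ v₁ hm₁ hm₁0 (fun φ γ hφ hc ↦
    sN φ γ ((eq_or_eq_of_quadratic hd hsig.ne _).resolve_left hφ) hc)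
  have n₂ := hNONV F H₁ E ε _ m₂ v₂ hm₂ hm₂0 (fun φ γ hφ hc ↦
    sH₁ φ γ ((eq_or_eq_of_quadratic hd hsig.ne _).resolve_right hφ) hc)
  have n₃ := hNONV F H₂ E ε _ m₃ v₂ hm₃ hm₃0 (fun φ γ hφ hc ↦
    sH₂ φ γ ((eq_or_eq_of_quadratic hd hsig.ne _).resolve_right hφ) hc)
  have hresN : ∀ (ι' : Ω →+* ℂ) (σ : H₁ →+* Ω),
      (ι'.comp (σ.comp (algebraMap N H₁))).comp (algebraMap F N) =
        ι'.comp (σ.comp (algebraMap F H₁)) := by
    intro ι' σ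
    ext x
    show ι' (σ (algebraMap N H₁ (algebraMap F N x))) = ι' (σ (algebraMap F H₁ x))
    rw [← IsScalarTower.algebraMap_apply F N H₁]
  -- the matrix
  set A₁ := extHom (logUnits Λ (τ₁.comp (algebraMap N H₁))) (cc (ι.comp lam) m₁) with hA₁
  set A₂ := extHom (logUnits Λ (τ₂.comp (algebraMap N H₁))) (cc (ι.comp lam) m₁) with hA₂
  set B₁ := extHom (logUnits Λ τ₁) (cc (ι.comp lam) m₂) with hB₁
  set B₂ := extHom (logUnits Λ τ₂) (cc (ι.comp lam) m₂) with hB₂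
  set C₁ := extHom (logUnits Λ τ₁') (cc (ι.comp lam) m₃) with hC₁
  set C₂ := extHom (logUnits Λ τ₂') (cc (ι.comp lam) m₃) with hC₂
  have hA₁0 : A₁ ≠ 0 := fun h ↦ hm₁0 (hINJ p k Ω ι Λ E lam N _ m₁ h)
  have d₃ : B₁ * C₂ = B₂ * C₁ := by
    apply mul_left_cancel₀ hA₁0
    linear_combination B₁ * d₂ - C₁ * d₁
  have eA₁ : A₁ = extHom (logUnits Λ ι)
      (cc (ι.comp lam) (pf E (σ₁.comp (algebraMap N H₁)) m₁)) := by
    rw [cc_pf, extHom_logUnits_pf, hA₁, ← hσ₁]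
    rfl
  have eA₂ : A₂ = extHom (logUnits Λ ι)
      (cc (ι.comp lam) (pf E (σ₂.comp (algebraMap N H₁)) m₁)) := by
    rw [cc_pf, extHom_logUnits_pf, hA₂, ← hσ₂]
    rfl
  have eB₁ : B₁ = extHom (logUnits Λ ι) (cc (ι.comp lam) (pf E σ₁ m₂)) := by
    rw [cc_pf, extHom_logUnits_pf, hB₁, ← hσ₁]
  have eB₂ : B₂ = extHom (logUnits Λ ι) (cc (ι.comp lam) (pf E σ₂ m₂)) := by
    rw [cc_pf, extHom_logUnits_pf, hB₂, ← hσ₂]
  have eC₁ : C₁ = extHom (logUnits Λ ι) (cc (ι.comp lam) (pf E σ₁' m₃)) := by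
    rw [cc_pf, extHom_logUnits_pf, hC₁, ← hσ₁']
  have eC₂ : C₂ = extHom (logUnits Λ ι) (cc (ι.comp lam) (pf E σ₂' m₃)) := by
    rw [cc_pf, extHom_logUnits_pf, hC₂, ← hσ₂']
  rcases hSIXT p k Ω ι Λ E lam 3 2
    ![![pf E (σ₁.comp (algebraMap N H₁)) m₁, pf E (σ₂.comp (algebraMap N H₁)) m₁],
      ![pf E σ₁ m₂, pf E σ₂ m₂], ![pf E σ₁' m₃, pf E σ₂' m₃]]
    ![![A₁, A₂], ![B₁, B₂], ![C₁, C₂]] (fun i j ↦ by
      fin_cases i <;> fin_cases j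
      · exact eA₁
      · exact eA₂
      · exact eB₁
      · exact eB₂
      · exact eC₁
      · exact eC₂) (by norm_num) (by
      intro i i' j j'
      fin_cases i <;> fin_cases i' <;> fin_cases j <;> fin_cases j' <;>
        simp only [Fin.zero_eta, Fin.mk_one, Fin.reduceFinMk, Fin.isValue, Matrix.cons_val_zero,
          Matrix.cons_val_one, Matrix.cons_val] <;>
        first
        | ring1
        | linear_combination d₁
        | linear_combination -d₁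
        | linear_combination d₂
        | linear_combination -d₂
        | linear_combination d₃
        | linear_combination -d₃) with ⟨a, ha0, ha⟩ | ⟨c, hc0, hc⟩
  · -- dependent rows
    have ha := ha 0
    rw [Fin.sum_univ_three] at ha
    simp only [Matrix.cons_val_zero, Matrix.cons_val_one, Matrix.cons_val] at ha
    have hrel : ∀ ι' : Ω →+* ℂ,
        ε (a 0) * extHom (logC (ι'.comp (σ₁.comp (algebraMap N H₁)))) (cc ε m₁) +
        ε (a 1) * extHom (logC (ι'.comp σ₁)) (cc ε m₂) +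
        ε (a 2) * extHom (logC (ι'.comp σ₁')) (cc ε m₃) = 0 := by
      intro ι'
      have h3 := hTRT p k Ω ι Λ E lam (a 0 • pf E (σ₁.comp (algebraMap N H₁)) m₁ +
        a 1 • pf E σ₁ m₂ + a 2 • pf E σ₁' m₃) (by
          rw [map_add, map_add, map_add, map_add, cc_smul, cc_smul, cc_smul, map_smul, map_smul,
            map_smul, ← eA₁, ← eB₁, ← eC₁]
          exact ha) ε ι'
      rw [map_add, map_add, map_add, map_add, cc_smul, cc_smul, cc_smul, map_smul, map_smul,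
        map_smul, cc_pf, cc_pf, cc_pf, extHom_logC_pf, extHom_logC_pf, extHom_logC_pf] at h3
      exact h3
    have hz1 : ∀ ι' : Ω →+* ℂ, ι'.comp (σ₁.comp (algebraMap F H₁)) = v₁ →
        extHom (logC (ι'.comp σ₁)) (cc ε m₂) = 0 ∧
          extHom (logC (ι'.comp σ₁')) (cc ε m₃) = 0 := by
      intro ι' h
      constructor
      · by_contra h3
        have h4 := (n₂ (ι'.comp σ₁)).2 h3
        apply hsig.ne
        rw [← h, ← h4]
        rfl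
      · by_contra h3
        have h4 := (n₃ (ι'.comp σ₁')).2 h3
        apply hsig.ne
        rw [← h, ← h4]
        ext x
        show ι' (σ₁ (algebraMap F H₁ x)) = ι' (σ₁' (algebraMap F H₂ x))
        rw [hF1]
    have ha0' : a 0 = 0 := by
      obtain ⟨ι', hι'⟩ := exists_ext (σ₁.comp (algebraMap F H₁)) v₁
      have h3 := hrel ι'
      obtain ⟨h4, h5⟩ := hz1 ι' hι'
      rw [h4, h5, mul_zero, mul_zero, add_zero, add_zero] at h3
      have h6 := (n₁ (ι'.comp (σ₁.comp (algebraMap N H₁)))).1 (by rw [hresN, hι'])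
      exact (map_eq_zero ε).mp ((mul_eq_zero.mp h3).resolve_right h6)
    obtain ⟨ι', hι'⟩ := exists_ext (σ₁.comp (algebraMap F H₁)) v₂
    obtain ⟨s, hs, x₀, hx₀⟩ := hAUTS F K₁ K₂ Ω (σ₁.comp (algebraMap K₁ H₁))
      (σ₁'.comp (algebraMap K₂ H₂)) hK₁ hK₂ (by
        ext x
        show σ₁ (algebraMap K₁ H₁ (algebraMap F K₁ x)) = σ₁' (algebraMap K₂ H₂ (algebraMap F K₂ x))
        rw [← IsScalarTower.algebraMap_apply F K₁ H₁, ← IsScalarTower.algebraMap_apply F K₂ H₂,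
          hF1]) hiso
    have hsF : ∀ x : F, s (σ₁ (algebraMap F H₁ x)) = σ₁ (algebraMap F H₁ x) := by
      intro x
      have := hs (algebraMap F K₁ x)
      rw [IsScalarTower.algebraMap_apply F K₁ H₁]
      exact this
    obtain ⟨γ, hγ⟩ := exists_gal_comp (K := F) (ι'.comp σ₁) ((ι'.comp (s : Ω →+* Ω)).comp σ₁) (by
      ext x
      show ι' (s (σ₁ (algebraMap F H₁ x))) = ι' (σ₁ (algebraMap F H₁ x))
      rw [hsF])
    obtain ⟨γ', hγ'⟩ := exists_gal_comp (K := F) (ι'.comp σ₁')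
      ((ι'.comp (s : Ω →+* Ω)).comp σ₁') (by
      ext x
      show ι' (s (σ₁' (algebraMap F H₂ x))) = ι' (σ₁' (algebraMap F H₂ x))
      rw [← hF1, hsF])
    have hγa : ∀ x : H₁, ι' (σ₁ (γ x)) = ι' (s (σ₁ x)) := fun x ↦ (RingHom.congr_fun hγ x).symm
    have hγa' : ∀ x : H₂, ι' (σ₁' (γ' x)) = ι' (s (σ₁' x)) := fun x ↦
      (RingHom.congr_fun hγ' x).symm
    have e1 : η₁ γ = 1 := by
      rw [hη₁ γ]
      intro x
      apply σ₁.injective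
      apply ι'.injective
      rw [hγa]
      exact congrArg ι' (hs x)
    have e2 : η₂ γ' = -1 := by
      rcases Int.units_eq_one_or (η₂ γ') with h3 | h3
      · exfalso
        apply hx₀
        have h4 := (hη₂ γ').1 h3 x₀
        apply ι'.injective
        show ι' (s (σ₁' (algebraMap K₂ H₂ x₀))) = ι' (σ₁' (algebraMap K₂ H₂ x₀))
        rw [← hγa', h4]
      · exact h3
    have e3 : AlgEquiv.restrictNormalHom N γ = AlgEquiv.restrictNormalHom N γ' := by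
      ext x
      apply (algebraMap N H₁).injective
      apply σ₁.injective
      apply ι'.injective
      have h3 : algebraMap N H₁ (AlgEquiv.restrictNormalHom N γ x) = γ (algebraMap N H₁ x) :=
        AlgEquiv.restrictNormal_commutes γ N x
      have h4 : algebraMap N H₂ (AlgEquiv.restrictNormalHom N γ' x) = γ' (algebraMap N H₂ x) :=
        AlgEquiv.restrictNormal_commutes γ' N x
      rw [h3, hγa, hN1, hN1, h4, hγa']
    have r1 := hrel ι'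
    have r2 := hrel (ι'.comp (s : Ω →+* Ω))
    rw [ha0', map_zero, zero_mul, zero_add] at r1 r2
    rw [hγ, hγ', extHom_logC_gal, extHom_logC_gal, hm₂.cc ε γ, hm₃.cc ε γ', map_smul, map_smul,
      smul_eq_mul, smul_eq_mul] at r2
    beta_reduce at r2
    rw [e1, e2, e3] at r2
    have hu : ε ((ψ (AlgEquiv.restrictNormalHom N γ') : Eˣ) : E) ≠ 0 := by
      rw [map_ne_zero]
      exact Units.ne_zero _
    simp only [map_mul, Units.val_one, Units.val_neg, Int.cast_one, Int.cast_neg, map_one,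
      map_neg] at r2
    have r3 : ε (a 1) * extHom (logC (ι'.comp σ₁)) (cc ε m₂) -
        ε (a 2) * extHom (logC (ι'.comp σ₁')) (cc ε m₃) = 0 := by
      apply mul_left_cancel₀ hu
      rw [mul_zero]
      linear_combination r2
    have h5 := (n₂ (ι'.comp σ₁)).1 hι'
    have h6 := (n₃ (ι'.comp σ₁')).1 (by
      rw [← hι']
      ext x
      show ι' (σ₁' (algebraMap F H₂ x)) = ι' (σ₁ (algebraMap F H₁ x))
      rw [hF1])
    have ha1 : a 1 = 0 := by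
      have : ε (a 1) * extHom (logC (ι'.comp σ₁)) (cc ε m₂) = 0 := by
        linear_combination (1 / 2 : ℂ) * (r1 + r3)
      exact (map_eq_zero ε).mp ((mul_eq_zero.mp this).resolve_right h5)
    have ha2 : a 2 = 0 := by
      have : ε (a 2) * extHom (logC (ι'.comp σ₁')) (cc ε m₃) = 0 := by
        linear_combination (1 / 2 : ℂ) * (r1 - r3)
      exact (map_eq_zero ε).mp ((mul_eq_zero.mp this).resolve_right h6)
    apply ha0
    ext i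
    fin_cases i
    · exact ha0'
    · exact ha1
    · exact ha2
  · -- dependent columns
    have hc := hc 0
    rw [Fin.sum_univ_two] at hc
    simp only [Matrix.cons_val_zero, Matrix.cons_val_one] at hc
    have hrel : ∀ ι' : Ω →+* ℂ,
        ε (c 0) * extHom (logC (ι'.comp (σ₁.comp (algebraMap N H₁)))) (cc ε m₁) +
        ε (c 1) * extHom (logC (ι'.comp (σ₂.comp (algebraMap N H₁)))) (cc ε m₁) = 0 := by
      intro ι'
      have h3 := hTRT p k Ω ι Λ E lam (c 0 • pf E (σ₁.comp (algebraMap N H₁)) m₁ +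
        c 1 • pf E (σ₂.comp (algebraMap N H₁)) m₁) (by
          rw [map_add, map_add, cc_smul, cc_smul, map_smul, map_smul, ← eA₁, ← eA₂]
          exact hc) ε ι'
      rw [map_add, map_add, cc_smul, cc_smul, map_smul, map_smul, cc_pf, cc_pf, extHom_logC_pf,
        extHom_logC_pf] at h3
      exact h3
    have hneι : ∀ ι' : Ω →+* ℂ, ι'.comp (σ₁.comp (algebraMap F H₁)) ≠
        ι'.comp (σ₂.comp (algebraMap F H₁)) := by
      intro ι' h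
      apply hne
      ext x
      apply ι'.injective
      exact RingHom.congr_fun h x
    have hc0' : c 0 = 0 := by
      obtain ⟨ι', hι'⟩ := exists_ext (σ₁.comp (algebraMap F H₁)) v₁
      have h3 := hrel ι'
      have h4 : extHom (logC (ι'.comp (σ₂.comp (algebraMap N H₁)))) (cc ε m₁) = 0 := by
        by_contra h5
        have h6 := (n₁ _).2 h5
        rw [hresN] at h6
        exact hneι ι' (by rw [hι', h6])
      have h7 := (n₁ (ι'.comp (σ₁.comp (algebraMap N H₁)))).1 (by rw [hresN, hι'])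
      rw [h4, mul_zero, add_zero] at h3
      exact (map_eq_zero ε).mp ((mul_eq_zero.mp h3).resolve_right h7)
    have hc1' : c 1 = 0 := by
      obtain ⟨ι', hι'⟩ := exists_ext (σ₂.comp (algebraMap F H₁)) v₁
      have h3 := hrel ι'
      have h4 : extHom (logC (ι'.comp (σ₁.comp (algebraMap N H₁)))) (cc ε m₁) = 0 := by
        by_contra h5
        have h6 := (n₁ _).2 h5
        rw [hresN] at h6
        exact hneι ι' (by rw [hι', h6])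
      have h7 := (n₁ (ι'.comp (σ₂.comp (algebraMap N H₁)))).1 (by rw [hresN, hι'])
      rw [h4, mul_zero, zero_add] at h3
      exact (map_eq_zero ε).mp ((mul_eq_zero.mp h3).resolve_right h7)
    apply hc0
    ext i
    fin_cases i
    · exact hc0'
    · exact hc1'

/-- Alignment of the embeddings. -/
theorem alignB (hTRT : S_TRT.{u, v, u}) (hSIXT : S_SIXT.{u, v, u}) (hINJ : S_INJ.{u, v, u, u})
    (hNONV : S_NONV.{u, u, u}) (hSGNB : S_SGNB.{u, u, u, u, u}) (hAUTS : S_AUTS.{u, u, u, u})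
    (hGRP : S_GRP.{u, u, u, u})
    (hd : finrank ℚ F = 2) (hK₁ : finrank F K₁ = 2) (hK₂ : finrank F K₂ = 2)
    (hiso : IsEmpty (K₂ ≃ₐ[F] K₁)) (v₁ v₂ : F →+* ℂ) (hsig : Sig (N := N) v₁ v₂)
    (p : ℕ) [Fact p.Prime] (k : Type v) [NormedField k] [NormedAlgebra ℚ_[p] k]
    [IsUltrametricDist k] [CompleteSpace k] [CharZero k] [IsAlgClosed k] (Ω : Type u) [Field Ω]
    [CharZero Ω] [Algebra.IsAlgebraic ℚ Ω] [IsAlgClosed Ω] (ι : Ω →+* k) (Λ : IwasawaLog p k)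
    (E : Type u) [Field E] [NumberField E] (lam : E →+* Ω) (ψ : (N ≃ₐ[F] N) →* Eˣ)
    (hψ : Function.Injective ψ) (η₁ : (H₁ ≃ₐ[F] H₁) →* ℤˣ) (hη₁ : IsSgn (K := K₁) η₁)
    (η₂ : (H₂ ≃ₐ[F] H₂) →* ℤˣ) (hη₂ : IsSgn (K := K₂) η₂)
    (m₁ : E ⊗[ℤ] Additive (𝓞 N)ˣ) (hm₁ : Eig (fun γ : N ≃ₐ[F] N ↦ (ψ γ : E)) m₁) (hm₁0 : m₁ ≠ 0)
    (m₂ : E ⊗[ℤ] Additive (𝓞 H₁)ˣ) (hm₂ : Eig (fun γ : H₁ ≃ₐ[F] H₁ ↦
      (ψ (AlgEquiv.restrictNormalHom N γ) : E) * ((η₁ γ : ℤ) : E)) m₂) (hm₂0 : m₂ ≠ 0)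
    (m₃ : E ⊗[ℤ] Additive (𝓞 H₂)ˣ) (hm₃ : Eig (fun γ : H₂ ≃ₐ[F] H₂ ↦
      (ψ (AlgEquiv.restrictNormalHom N γ) : E) * ((η₂ γ : ℤ) : E)) m₃) (hm₃0 : m₃ ≠ 0)
    (τ₁ τ₂ : H₁ →+* k) (τ₁' τ₂' : H₂ →+* k)
    (h12 : τ₁.comp (algebraMap F H₁) ≠ τ₂.comp (algebraMap F H₁))
    (h12' : τ₁'.comp (algebraMap F H₂) ≠ τ₂'.comp (algebraMap F H₂))
    (d₁ : extHom (logUnits Λ (τ₁.comp (algebraMap N H₁))) (cc (ι.comp lam) m₁) *
        extHom (logUnits Λ τ₂) (cc (ι.comp lam) m₂) =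
      extHom (logUnits Λ (τ₂.comp (algebraMap N H₁))) (cc (ι.comp lam) m₁) *
        extHom (logUnits Λ τ₁) (cc (ι.comp lam) m₂))
    (d₂ : extHom (logUnits Λ (τ₁'.comp (algebraMap N H₂))) (cc (ι.comp lam) m₁) *
        extHom (logUnits Λ τ₂') (cc (ι.comp lam) m₃) =
      extHom (logUnits Λ (τ₂'.comp (algebraMap N H₂))) (cc (ι.comp lam) m₁) *
        extHom (logUnits Λ τ₁') (cc (ι.comp lam) m₃)) : False := by
  -- alignment over `N` of one embedding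
  have step : ∀ (τ : H₁ →+* k) (τ' : H₂ →+* k),
      τ'.comp (algebraMap F H₂) = τ.comp (algebraMap F H₁) →
      ∃ (g : N ≃ₐ[F] N) (τ'' : H₂ →+* k),
        τ.comp (algebraMap N H₁) = τ''.comp (algebraMap N H₂) ∧
        extHom (logUnits Λ (τ.comp (algebraMap N H₁))) (cc (ι.comp lam) m₁) =
          ι (lam (ψ g : E)) *
            extHom (logUnits Λ (τ'.comp (algebraMap N H₂))) (cc (ι.comp lam) m₁) ∧
        extHom (logUnits Λ τ'') (cc (ι.comp lam) m₃) =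
          ι (lam (ψ g : E)) * extHom (logUnits Λ τ') (cc (ι.comp lam) m₃) := by
    intro τ τ' h
    obtain ⟨g, hg⟩ := exists_gal_comp (K := F) (τ'.comp (algebraMap N H₂))
      (τ.comp (algebraMap N H₁)) (by
        ext x
        show τ (algebraMap N H₁ (algebraMap F N x)) = τ' (algebraMap N H₂ (algebraMap F N x))
        rw [← IsScalarTower.algebraMap_apply F N H₁, ← IsScalarTower.algebraMap_apply F N H₂]
        exact (RingHom.congr_fun h x).symm)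
    obtain ⟨γ, hγ⟩ := (hGRP F N K₂ H₂ v₁ v₂ hK₂ hsig).2.1 g
    set γF : H₂ ≃ₐ[F] H₂ := γ.restrictScalars F with hγF
    have hγ1 : η₂ γF = 1 := by
      rw [hη₂ γF]
      intro x
      exact γ.commutes x
    have hγ2 : AlgEquiv.restrictNormalHom N γF = g := by
      ext x
      apply (algebraMap N H₂).injective
      have h4 : algebraMap N H₂ (AlgEquiv.restrictNormalHom N γF x) = γF (algebraMap N H₂ x) :=
        AlgEquiv.restrictNormal_commutes γF N x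
      rw [h4]
      exact hγ x
    refine ⟨g, τ'.comp (γF : H₂ →+* H₂), ?_, ?_, ?_⟩
    · rw [hg]
      ext x
      show τ' (algebraMap N H₂ (g x)) = τ' (γ (algebraMap N H₂ x))
      rw [hγ]
    · rw [hg, extHom_logUnits_gal, hm₁.cc (ι.comp lam) g, map_smul, smul_eq_mul]
      rfl
    · rw [extHom_logUnits_gal, hm₃.cc (ι.comp lam) γF, map_smul, smul_eq_mul]
      beta_reduce
      rw [hγ1, hγ2]
      simp
  -- the two cases
  have key : ∀ (τ₁' τ₂' : H₂ →+* k),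
      τ₁'.comp (algebraMap F H₂) = τ₁.comp (algebraMap F H₁) →
      τ₂'.comp (algebraMap F H₂) = τ₂.comp (algebraMap F H₁) →
      extHom (logUnits Λ (τ₁'.comp (algebraMap N H₂))) (cc (ι.comp lam) m₁) *
        extHom (logUnits Λ τ₂') (cc (ι.comp lam) m₃) =
      extHom (logUnits Λ (τ₂'.comp (algebraMap N H₂))) (cc (ι.comp lam) m₁) *
        extHom (logUnits Λ τ₁') (cc (ι.comp lam) m₃) → False := by
    intro τ₁' τ₂' h1 h2 d
    obtain ⟨g₁, t₁, a₁, b₁, c₁⟩ := step τ₁ τ₁' h1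
    obtain ⟨g₂, t₂, -, b₂, c₂⟩ := step τ₂ τ₂' h2
    refine coreB hTRT hSIXT hINJ hNONV hSGNB hAUTS hd hK₁ hK₂ hiso v₁ v₂ hsig p k Ω ι Λ E lam ψ hψ
      η₁ hη₁ η₂ hη₂ m₁ hm₁ hm₁0 m₂ hm₂ hm₂0 m₃ hm₃ hm₃0 τ₁ τ₂ t₁ t₂ a₁ h12 d₁ ?_
    rw [b₁, b₂, c₁, c₂]
    linear_combination (ι (lam (ψ g₁ : E)) * ι (lam (ψ g₂ : E))) * d
  rcases eq_or_eq_quad hd h12 (τ₁'.comp (algebraMap F H₂)) with h | h
  · rcases eq_or_eq_quad hd h12 (τ₂'.comp (algebraMap F H₂)) with h' | h'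
    · exact h12' (h.trans h'.symm)
    · exact key τ₁' τ₂' h h' d₂
  · rcases eq_or_eq_quad hd h12 (τ₂'.comp (algebraMap F H₂)) with h' | h'
    · exact key τ₂' τ₁' h' h (by linear_combination -d₂)
    · exact h12' (h.trans h'.symm)

end

section

variable {F N K H : Type u} [Field F] [NumberField F] [IsTotallyReal F] [Field N]
  [NumberField N] [Algebra F N] [IsGalois F N]
  [Field K] [NumberField K] [IsTotallyComplex K] [Algebra F K]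
  [Field H] [NumberField H] [Algebra F H] [Algebra N H] [Algebra K H]
  [IsScalarTower F N H] [IsScalarTower F K H] [IsGalois F H]

theorem Eig.zero {F H A : Type*} [Field F] [Field H] [Algebra F H] [Field A]
    (θ : (H ≃ₐ[F] H) → A) : Eig θ (0 : A ⊗[ℤ] Additive (𝓞 H)ˣ) := by
  intro γ
  rw [map_zero, smul_zero]

/-- A generator of a one-dimensional eigenspace. -/
theorem exists_gen (hEIG : S_EIGSPAN.{u, u, u, v}) (k : Type v) [Field k] [CharZero k]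
    (E : Type u) [Field E] [NumberField E] (f : E →+* k) (θ : (H ≃ₐ[F] H) →* Eˣ) (ε : E →+* ℂ)
    (φ : H →+* ℂ)
    (h : ∀ x : ℂ ⊗[ℤ] Additive (𝓞 H)ˣ, Eig (fun γ : H ≃ₐ[F] H ↦ ε (θ γ : E)) x →
      extHom (logC φ) x = 0 → x = 0) :
    ∃ m : E ⊗[ℤ] Additive (𝓞 H)ˣ, Eig (fun γ : H ≃ₐ[F] H ↦ (θ γ : E)) m ∧
      ∀ y : k ⊗[ℤ] Additive (𝓞 H)ˣ, Eig (fun γ : H ≃ₐ[F] H ↦ f (θ γ : E)) y →
        ∃ a : k, y = a • cc f m := by
  obtain ⟨n, m, hn, -, hm, hspan⟩ := hEIG F H E θ ε 1 ![φ] (fun x hx h0 ↦ h x hx (h0 0))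
  rcases Nat.le_one_iff_eq_zero_or_eq_one.mp hn with h0 | h1
  · subst h0
    refine ⟨0, Eig.zero _, fun y hy ↦ ⟨0, ?_⟩⟩
    obtain ⟨c, hc⟩ := hspan k f y hy
    rw [hc]
    simp
  · subst h1
    refine ⟨m 0, hm 0, fun y hy ↦ ?_⟩
    obtain ⟨c, hc⟩ := hspan k f y hy
    refine ⟨c 0, ?_⟩
    rw [hc]
    simp

/-- The eigenvalues of the second part. -/
noncomputable def thm {E : Type*} [Field E] (ψ : (N ≃ₐ[F] N) →* Eˣ) (η : (H ≃ₐ[F] H) →* ℤˣ) :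
    (H ≃ₐ[F] H) →* Eˣ :=
  (ψ.comp (AlgEquiv.restrictNormalHom N)) * ((Units.map ((Int.castRingHom E : ℤ →+* E) : ℤ →* E)).comp η)

theorem thm_coe {E : Type*} [Field E] (ψ : (N ≃ₐ[F] N) →* Eˣ) (η : (H ≃ₐ[F] H) →* ℤˣ)
    (γ : H ≃ₐ[F] H) : ((thm ψ η γ : Eˣ) : E) =
      (ψ (AlgEquiv.restrictNormalHom N γ) : E) * ((η γ : ℤ) : E) := rfl

/-- The analysis of the failure at one field `K`. -/
theorem oneB (hINJ : S_INJ.{u, v, u, u}) (hEIG : S_EIGSPAN.{u, u, u, v})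
    (hARCHB : S_ARCHB.{u, u}) (hGRP : S_GRP.{u, u, u, u}) (hSPLIT : S_SPLIT.{u, u, u, u, v})
    (hDESC : S_DESC.{u, u, u, v}) (hFAILB : S_FAILB.{u, v, u, u, u, u}) (hLUN : S_LUN.{u, v})
    (hSGNB : S_SGNB.{u, u, u, u, u})
    (hd : finrank ℚ F = 2) (hK : finrank F K = 2) (hgen : Gen F N K H)
    (v₁ v₂ : F →+* ℂ) (hsig : Sig (N := N) v₁ v₂)
    (p : ℕ) [Fact p.Prime] (k : Type v) [NormedField k] [NormedAlgebra ℚ_[p] k]
    [IsUltrametricDist k] [CompleteSpace k] [CharZero k] [IsAlgClosed k] (Ω : Type u) [Field Ω]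
    [CharZero Ω] [Algebra.IsAlgebraic ℚ Ω] [IsAlgClosed Ω] (ι : Ω →+* k) (Λ : IwasawaLog p k)
    (E : Type u) [Field E] [NumberField E] (lam : E →+* Ω) (ψ : (N ≃ₐ[F] N) →* Eˣ)
    (hψ : Function.Injective ψ) (η : (H ≃ₐ[F] H) →* ℤˣ) (hη : IsSgn (K := K) η)
    (m₁ : E ⊗[ℤ] Additive (𝓞 N)ˣ)
    (hm₁ : ∀ m : k ⊗[ℤ] Additive (𝓞 N)ˣ, Eig (fun γ : N ≃ₐ[F] N ↦ ι (lam (ψ γ : E))) m →
      ∃ a : k, m = a • cc (ι.comp lam) m₁)
    (ιinf : Ω →+* ℂ) (ιp : Ω →+* k) (S : Set (K →+* ℂ)) (hS : IsCMType S)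
    (χ : (H ≃ₐ[K] H) →* kˣ) (L : IwasawaLog p k)
    (hχ : ∀ (γ : H ≃ₐ[K] H) (g : N ≃ₐ[F] N),
      (∀ x : N, γ (algebraMap N H x) = algebraMap N H (g x)) → (χ γ : k) = ι (lam (ψ g : E)))
    (hfail : ¬ InjectiveOn (finrank K H) χ unitsHom (logSigma ιinf ιp S L)) :
    m₁ ≠ 0 ∧ ∃ m₂ : E ⊗[ℤ] Additive (𝓞 H)ˣ, m₂ ≠ 0 ∧
      Eig (fun γ : H ≃ₐ[F] H ↦
        (ψ (AlgEquiv.restrictNormalHom N γ) : E) * ((η γ : ℤ) : E)) m₂ ∧
      ∃ τ₁ τ₂ : H →+* k, τ₁.comp (algebraMap F H) ≠ τ₂.comp (algebraMap F H) ∧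
        extHom (logUnits Λ (τ₁.comp (algebraMap N H))) (cc (ι.comp lam) m₁) *
            extHom (logUnits Λ τ₂) (cc (ι.comp lam) m₂) =
          extHom (logUnits Λ (τ₂.comp (algebraMap N H))) (cc (ι.comp lam) m₁) *
            extHom (logUnits Λ τ₁) (cc (ι.comp lam) m₂) := by
  obtain ⟨ε⟩ : Nonempty (E →+* ℂ) := inferInstance
  have hfdH : FiniteDimensional K H := FiniteDimensional.right ℚ K H
  have hfdH' : FiniteDimensional F H := FiniteDimensional.right ℚ F H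
  obtain ⟨-, sH⟩ := hSGNB F N K H E v₁ v₂ ψ η hsig hψ hη
  obtain ⟨φ₂, hφ₂⟩ := exists_extend_embedding (H := H) v₂
  obtain ⟨m₂, hm₂E, hm₂⟩ := exists_gen hEIG k E (ι.comp lam) (thm ψ η) ε φ₂
    (fun x hx h0 ↦ hARCHB F H _ x hx φ₂ (fun φ γ hφ hc h1 ↦ by
      rw [hφ₂] at hφ
      refine sH φ γ ((eq_or_eq_of_quadratic hd hsig.ne _).resolve_right hφ) hc ?_
      apply ε.injective
      rw [map_one]
      exact h1) h0)
  -- the embeddings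
  obtain ⟨φ, hφS, hφ⟩ := hS.exists_mem v₁
  obtain ⟨φ', hφ'S, hφ'⟩ := hS.exists_mem v₂
  obtain ⟨κ₁, hκ₁⟩ := exists_lift_embedding ιinf φ
  obtain ⟨κ₂, hκ₂⟩ := exists_lift_embedding ιinf φ'
  obtain ⟨σ₁, hσ₁⟩ := exists_extend_embedding (H := H) κ₁
  obtain ⟨σ₂, hσ₂⟩ := exists_extend_embedding (H := H) κ₂
  let T : Set (H →+* k) := {τ : H →+* k |
    ∃ σ : H →+* Ω, ιinf.comp (σ.comp (algebraMap K H)) ∈ S ∧ τ = ιp.comp σ}
  have hT : logSigma (H := H) ιinf ιp S L = {ℓ | ∃ τ ∈ T, ℓ = logUnits Λ τ} := by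
    ext ℓ
    constructor
    · rintro ⟨σ, hσ, rfl⟩
      exact ⟨_, ⟨σ, hσ, rfl⟩, hLUN p k H _ L Λ⟩
    · rintro ⟨_, ⟨σ, hσ, rfl⟩, rfl⟩
      exact ⟨σ, hσ, hLUN p k H _ Λ L⟩
  rw [hT] at hfail
  obtain ⟨h1, h2, h3⟩ := hFAILB hINJ p k Ω ι Λ E lam F N K H v₁ v₂ ψ η m₁ m₂ χ T
    (ιp.comp σ₁) (ιp.comp σ₂) hSPLIT hDESC hGRP hK hsig hgen hη hm₁ (fun m hm ↦ hm₂ m (by
      intro γ
      rw [hm γ]
      show _ = ι (lam ((thm ψ η γ : Eˣ) : E)) • m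
      rw [thm_coe, map_mul, map_mul, map_intCast, map_intCast])) hχ
    ⟨σ₁, by rw [hσ₁, hκ₁]; exact hφS, rfl⟩ ⟨σ₂, by rw [hσ₂, hκ₂]; exact hφ'S, rfl⟩ hfail
  refine ⟨h1, m₂, h2, hm₂E, _, _, ?_, h3⟩
  intro h
  apply hsig.ne
  rw [← hφ, ← hφ', ← hκ₁, ← hκ₂]
  ext x
  show ιinf (κ₁ (algebraMap F K x)) = ιinf (κ₂ (algebraMap F K x))
  congr 1
  apply ιp.injective
  have h4 := RingHom.congr_fun h x
  have h5 : ∀ σ : H →+* Ω, (ιp.comp σ).comp (algebraMap F H) x =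
      ιp (σ.comp (algebraMap K H) (algebraMap F K x)) := by
    intro σ
    show ιp (σ (algebraMap F H x)) = ιp (σ (algebraMap K H (algebraMap F K x)))
    rw [← IsScalarTower.algebraMap_apply F K H]
  rw [h5, h5, hσ₁, hσ₂] at h4
  exact h4

end

section

variable {F N K₁ H₁ K₂ H₂ : Type u} [Field F] [NumberField F] [IsTotallyReal F] [Field N]
  [NumberField N] [Algebra F N] [IsGalois F N]
  [Field K₁] [NumberField K₁] [IsTotallyComplex K₁] [Algebra F K₁]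
  [Field H₁] [NumberField H₁] [Algebra F H₁] [Algebra N H₁] [Algebra K₁ H₁]
  [IsScalarTower F N H₁] [IsScalarTower F K₁ H₁] [IsGalois F H₁]
  [Field K₂] [NumberField K₂] [IsTotallyComplex K₂] [Algebra F K₂]
  [Field H₂] [NumberField H₂] [Algebra F H₂] [Algebra N H₂] [Algebra K₂ H₂]
  [IsScalarTower F N H₂] [IsScalarTower F K₂ H₂] [IsGalois F H₂]

/-- The conclusion of target B for one field `K`. -/
def SLB (F N K H : Type*) [Field F] [Field N] [Algebra F N] [Field K] [Field H]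
    [Algebra N H] [Algebra K H] (Ω : Type*) [Field Ω] (p : ℕ) (k : Type*) [NormedField k]
    (ψ : (N ≃ₐ[F] N) →* kˣ) : Prop :=
  ∀ (ιinf : Ω →+* ℂ) (ιp : Ω →+* k) (S : Set (K →+* ℂ)) (χ : (H ≃ₐ[K] H) →* kˣ)
    (L : IwasawaLog p k), IsCMType S →
    (∀ (γ : H ≃ₐ[K] H) (g : N ≃ₐ[F] N),
      (∀ x : N, γ (algebraMap N H x) = algebraMap N H (g x)) → χ γ = ψ g) →
    InjectiveOn (finrank K H) χ unitsHom (logSigma ιinf ιp S L)

/-- **Target B.** -/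
theorem mainB (hTRT : S_TRT.{u, v, u}) (hSIXT : S_SIXT.{u, v, u}) (hINJ : S_INJ.{u, v, u, u})
    (hEIG : S_EIGSPAN.{u, u, u, v}) (hVAL : S_VAL.{v, u, u}) (hSGN : S_SGN.{u, u})
    (hARCHB : S_ARCHB.{u, u}) (hGRP : S_GRP.{u, u, u, u}) (hSPLIT : S_SPLIT.{u, u, u, u, v})
    (hDESC : S_DESC.{u, u, u, v}) (hFAILB : S_FAILB.{u, v, u, u, u, u}) (hLUN : S_LUN.{u, v})
    (hNONV : S_NONV.{u, u, u}) (hSGNB : S_SGNB.{u, u, u, u, u}) (hAUTS : S_AUTS.{u, u, u, u})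
    (hd : finrank ℚ F = 2) (hK₁ : finrank F K₁ = 2) (hK₂ : finrank F K₂ = 2)
    (hiso : IsEmpty (K₂ ≃ₐ[F] K₁)) (hr : ¬ IsTotallyReal N) (hc : ¬ IsTotallyComplex N)
    (hgen₁ : Gen F N K₁ H₁) (hgen₂ : Gen F N K₂ H₂)
    (p : ℕ) [Fact p.Prime] (k : Type v) [NormedField k] [NormedAlgebra ℚ_[p] k]
    [IsUltrametricDist k] [CompleteSpace k] [CharZero k] [IsAlgClosed k] (Ω : Type u) [Field Ω]
    [CharZero Ω] [Algebra.IsAlgebraic ℚ Ω] [IsAlgClosed Ω] (ψ : (N ≃ₐ[F] N) →* kˣ)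
    (hψ : Function.Injective ψ) : SLB F N K₁ H₁ Ω p k ψ ∨ SLB F N K₂ H₂ Ω p k ψ := by
  by_contra hcon
  rw [not_or] at hcon
  obtain ⟨hf₁, hf₂⟩ := hcon
  unfold SLB at hf₁ hf₂
  push Not at hf₁ hf₂
  obtain ⟨ιinf, ι, S₁, χ₁, Λ, hS₁, hχ₁, hf₁⟩ := hf₁
  obtain ⟨ιinf', ι', S₂, χ₂, Λ', hS₂, hχ₂, hf₂⟩ := hf₂
  have hfdN : FiniteDimensional F N := FiniteDimensional.right ℚ F N
  obtain ⟨E, hNE, ψ₀, hψ₀⟩ := hVAL k Ω ι (N ≃ₐ[F] N) ψ
  set lam : E →+* Ω := algebraMap E Ω with hlam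
  have hψ₀i : Function.Injective ψ₀ := by
    intro g g' h
    apply hψ
    apply Units.ext
    rw [← hψ₀, ← hψ₀, h]
  obtain ⟨v₁, v₂, hsig⟩ := hSGN F N hr hc
  obtain ⟨η₁, hη₁⟩ := (hGRP F N K₁ H₁ v₁ v₂ hK₁ hsig).2.2
  obtain ⟨η₂, hη₂⟩ := (hGRP F N K₂ H₂ v₁ v₂ hK₂ hsig).2.2
  obtain ⟨sN, -⟩ := hSGNB F N K₁ H₁ E v₁ v₂ ψ₀ η₁ hsig hψ₀i hη₁
  obtain ⟨ε⟩ : Nonempty (E →+* ℂ) := inferInstance
  obtain ⟨φ₁, hφ₁⟩ := exists_extend_embedding (H := N) v₁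
  obtain ⟨m₁, hm₁E, hm₁⟩ := exists_gen hEIG k E (ι.comp lam) ψ₀ ε φ₁
    (fun x hx h0 ↦ hARCHB F N _ x hx φ₁ (fun φ γ hφ hc h1 ↦ by
      rw [hφ₁] at hφ
      refine sN φ γ ((eq_or_eq_of_quadratic hd hsig.ne _).resolve_left hφ) hc ?_
      apply ε.injective
      rw [map_one]
      exact h1) h0)
  obtain ⟨h1, m₂, hm₂0, hm₂, τ₁, τ₂, h12, d₁⟩ := oneB hINJ hEIG hARCHB hGRP hSPLIT hDESC hFAILB
    hLUN hSGNB hd hK₁ hgen₁ v₁ v₂ hsig p k Ω ι Λ E lam ψ₀ hψ₀i η₁ hη₁ m₁ hm₁ ιinf ι S₁ hS₁ χ₁ Λ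
    (fun γ g h ↦ by rw [hχ₁ γ g h]; exact (hψ₀ g).symm) hf₁
  obtain ⟨-, m₃, hm₃0, hm₃, τ₁', τ₂', h12', d₂⟩ := oneB hINJ hEIG hARCHB hGRP hSPLIT hDESC hFAILB
    hLUN hSGNB hd hK₂ hgen₂ v₁ v₂ hsig p k Ω ι Λ E lam ψ₀ hψ₀i η₂ hη₂ m₁ hm₁ ιinf' ι' S₂ hS₂ χ₂
    Λ' (fun γ g h ↦ by rw [hχ₂ γ g h]; exact (hψ₀ g).symm) hf₂
  exact alignB hTRT hSIXT hINJ hNONV hSGNB hAUTS hGRP hd hK₁ hK₂ hiso v₁ v₂ hsig p k Ω ι Λ E lam
    ψ₀ hψ₀i η₁ hη₁ η₂ hη₂ m₁ hm₁E h1 m₂ hm₂ hm₂0 m₃ hm₃ hm₃0 τ₁ τ₂ τ₁' τ₂' h12 h12' d₁ d₂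

end

end Pool.Agent.Helper59.SL
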